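import Pool.Agent.TH970.MDS.Defs

/-!
# Nested boxes
(job MDS-ASM of helper970, written by helper367)
-/

set_option autoImplicit false

namespace Pool.Agent.TH367.MDSAsm

open Filter Topology Pool.Agent.TH970.MDS

theorem nn_lip (x y : ℝ) : nn x ≤ nn y + |x - y| := by
  refine (H372R3.MD.nn_le x (round y)).trans ?_
  have h : x - round y = (x - y) + (y - round y) := by ring
  rw [h]
  refine (abs_add_le _ _).trans ?_
  rw [add_comm]
  exact le_rfl

theorem nn_cont : Continuous nn := by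
  have h : LipschitzWith 1 nn := by
    apply LipschitzWith.of_dist_le_mul
    intro x y
    rw [NNReal.coe_one, one_mul, Real.dist_eq, Real.dist_eq, abs_le]
    have h1 := nn_lip x y
    have h2 := nn_lip y x
    rw [abs_sub_comm] at h2
    constructor <;> linarith
  exact h.continuous

theorem prod_cont (q : ℤ) : Continuous (fun p : ℝ × ℝ => nn (q * p.1) * nn (q * p.2)) :=
  (nn_cont.comp (continuous_const.mul continuous_fst)).mul
    (nn_cont.comp (continuous_const.mul continuous_snd))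

theorem up_open (A B : ℤ) (c : ℝ) : IsOpen {p : ℝ × ℝ | UP A B c p.1 p.2} := by
  have h : {p : ℝ × ℝ | UP A B c p.1 p.2} = ⋂ m ∈ Finset.Ico A B, ⋃ q ∈ {q : ℤ | 1 ≤ q ∧ q ≤ m},
      {p : ℝ × ℝ | ((m : ℝ) + 1) * (nn (q * p.1) * nn (q * p.2)) < c} := by
    ext p
    simp only [Set.mem_iInter, Set.mem_iUnion]
    constructor
    · intro hp m hm
      rw [Finset.mem_Ico] at hm
      obtain ⟨q, h1, h2, h3⟩ := hp m hm.1 hm.2
      exact ⟨q, ⟨h1, h2⟩, h3⟩
    · intro hp m h1 h2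
      obtain ⟨q, hq, h3⟩ := hp m (Finset.mem_Ico.2 ⟨h1, h2⟩)
      exact ⟨q, hq.1, hq.2, h3⟩
  rw [h]
  exact isOpen_biInter_finset fun m _ => isOpen_biUnion fun q _ =>
    isOpen_lt (continuous_const.mul (prod_cont q)) continuous_const

theorem lo_open (A B : ℤ) (c : ℝ) : IsOpen {p : ℝ × ℝ | LO A B c p.1 p.2} := by
  have h : {p : ℝ × ℝ | LO A B c p.1 p.2} = ⋃ m ∈ {m : ℤ | A ≤ m ∧ m ≤ B},
      ⋂ q ∈ Finset.Icc 1 m, {p : ℝ × ℝ | c < (m : ℝ) * (nn (q * p.1) * nn (q * p.2))} := by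
    ext p
    simp only [Set.mem_iInter, Set.mem_iUnion]
    constructor
    · rintro ⟨m, h1, h2, h3⟩
      refine ⟨m, ⟨h1, h2⟩, fun q hq => ?_⟩
      rw [Finset.mem_Icc] at hq
      exact h3 q hq.1 hq.2
    · rintro ⟨m, hm, h3⟩
      exact ⟨m, hm.1, hm.2, fun q h4 h5 => h3 q (Finset.mem_Icc.2 ⟨h4, h5⟩)⟩
  rw [h]
  exact isOpen_biUnion fun m _ => isOpen_biInter_finset fun q _ =>
    isOpen_lt continuous_const (continuous_const.mul (prod_cont q))

theorem box_of_open {O : Set (ℝ × ℝ)} (hO : IsOpen O) {x y : ℝ} (h : (x, y) ∈ O) :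
    ∃ η : ℝ, 0 < η ∧ ∀ x' y' : ℝ, |x' - x| < η → |y' - y| < η → (x', y') ∈ O := by
  obtain ⟨η, hη, hb⟩ := Metric.isOpen_iff.1 hO _ h
  refine ⟨η, hη, fun x' y' hx hy => hb ?_⟩
  rw [Metric.mem_ball, Prod.dist_eq, Real.dist_eq, Real.dist_eq]
  exact max_lt hx hy

theorem t_Open : StOpen := by
  intro A B c x y
  refine ⟨fun h => ?_, fun h => ?_⟩
  · exact box_of_open (up_open A B c) (x := x) (y := y) h
  · exact box_of_open (lo_open A B c) (x := x) (y := y) h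

/-- the states -/
structure St (A : ℝ → ℝ → ℤ → Prop) where
  x : ℝ
  y : ℝ
  T : ℤ
  ρ : ℝ
  hA : A x y T
  hρ : 0 < ρ

/-- consecutive states -/
def Nx {A : ℝ → ℝ → ℤ → Prop} (v : ℝ) (n : ℕ) (S S' : St A) : Prop :=
  S.T < S'.T ∧ |S'.x - S.x| < S.ρ / 4 ∧ |S'.y - S.y| < S.ρ / 4 ∧ S'.ρ ≤ S.ρ / 4 ∧
  ∀ x'' y'' : ℝ, |x'' - S'.x| < S'.ρ → |y'' - S'.y| < S'.ρ →
    UP S.T S'.T (v + 1 / ((n : ℝ) + 1)) x'' y'' ∧ LO S.T S'.T (v - 1 / ((n : ℝ) + 1)) x'' y''

theorem exists_nx {A : ℝ → ℝ → ℤ → Prop} {v : ℝ}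
    (h : ∀ x y T, A x y T → 1 ≤ T ∧ ∀ ε : ℝ, 0 < ε → ∀ δ : ℝ, 0 < δ →
      ∃ x' y' T', A x' y' T' ∧ T < T' ∧ |x' - x| < δ ∧ |y' - y| < δ ∧
        UP T T' (v + ε) x' y' ∧ LO T T' (v - ε) x' y') (n : ℕ) (S : St A) :
    ∃ S' : St A, Nx v n S S' := by
  have hρ := S.hρ
  obtain ⟨x', y', T', h1, h2, h3, h4, h5, h6⟩ := (h S.x S.y S.T S.hA).2 (1 / ((n : ℝ) + 1))
    (by positivity) (S.ρ / 4) (by positivity)
  obtain ⟨η1, hη1, hb1⟩ := (t_Open S.T T' (v + 1 / ((n : ℝ) + 1)) x' y').1 h5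
  obtain ⟨η2, hη2, hb2⟩ := (t_Open S.T T' (v - 1 / ((n : ℝ) + 1)) x' y').2 h6
  refine ⟨⟨x', y', T', min (min η1 η2) (S.ρ / 4), h1, lt_min (lt_min hη1 hη2) (by positivity)⟩,
    h2, h3, h4, min_le_right _ _, fun x'' y'' hx hy => ?_⟩
  have e1 : min (min η1 η2) (S.ρ / 4) ≤ η1 := (min_le_left _ _).trans (min_le_left _ _)
  have e2 : min (min η1 η2) (S.ρ / 4) ≤ η2 := (min_le_left _ _).trans (min_le_right _ _)
  exact ⟨hb1 x'' y'' (hx.trans_le e1) (hy.trans_le e1), hb2 x'' y'' (hx.trans_le e2)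
    (hy.trans_le e2)⟩

/-- nested intervals -/
theorem exists_lim {x ρ : ℕ → ℝ} (hρ : ∀ n, 0 < ρ n) (h1 : ∀ n, |x (n + 1) - x n| < ρ n / 4)
    (h2 : ∀ n, ρ (n + 1) ≤ ρ n / 4) : ∃ l : ℝ, ∀ n, |l - x n| < ρ n := by
  have hanti : Antitone fun n => Set.Icc (x n - ρ n / 2) (x n + ρ n / 2) := by
    refine antitone_nat_of_succ_le fun n => ?_
    refine Set.Icc_subset_Icc ?_ ?_
    · have e1 := (abs_lt.1 (h1 n)).1
      have e2 := h2 n
      have e3 := hρ n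
      linarith
    · have e1 := (abs_lt.1 (h1 n)).2
      have e2 := h2 n
      have e3 := hρ n
      linarith
  have hmem := ciSup_mem_iInter_Icc_of_antitone_Icc hanti (fun n => by
    have := hρ n
    linarith)
  refine ⟨⨆ n, (x n - ρ n / 2), fun n => ?_⟩
  have h3 := Set.mem_iInter.1 hmem n
  rw [Set.mem_Icc] at h3
  have h4 := hρ n
  rw [abs_lt]
  constructor <;> linarith [h3.1, h3.2]

theorem t_Asm : StAsm := by
  intro v A _ ⟨x₀, y₀, T₀, h₀⟩ h
  choose nx hnx using exists_nx (A := A) (v := v) h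
  let s : ℕ → St A := fun n => Nat.rec (⟨x₀, y₀, T₀, 1, h₀, one_pos⟩ : St A)
    (fun n S => nx n S) n
  have hs : ∀ n, Nx v n (s n) (s (n + 1)) := fun n => hnx n (s n)
  obtain ⟨x, hx⟩ := exists_lim (x := fun n => (s n).x) (ρ := fun n => (s n).ρ)
    (fun n => (s n).hρ) (fun n => (hs n).2.1) (fun n => (hs n).2.2.2.1)
  obtain ⟨y, hy⟩ := exists_lim (x := fun n => (s n).y) (ρ := fun n => (s n).ρ)
    (fun n => (s n).hρ) (fun n => (hs n).2.2.1) (fun n => (hs n).2.2.2.1)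
  have hbox : ∀ n : ℕ, UP (s n).T (s (n + 1)).T (v + 1 / ((n : ℝ) + 1)) x y ∧
      LO (s n).T (s (n + 1)).T (v - 1 / ((n : ℝ) + 1)) x y :=
    fun n => (hs n).2.2.2.2 x y (hx (n + 1)) (hy (n + 1))
  have hTmono : StrictMono fun n => (s n).T := strictMono_nat_of_lt_succ fun n => (hs n).1
  have hT1 : ∀ n, 1 ≤ (s n).T := fun n => (h _ _ _ (s n).hA).1
  have hTn : ∀ n : ℕ, (n : ℤ) + 1 ≤ (s n).T := by
    intro n
    induction n with
    | zero => simpa using hT1 0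
    | succ n ih =>
      have := (hs n).1
      push_cast
      omega
  refine ⟨x, y, le_antisymm ?_ ?_⟩
  · refine le_of_forall_pos_le_add fun ε hε => ?_
    obtain ⟨n₀, hn₀⟩ := exists_nat_one_div_lt hε
    apply H372R3.MD.LL_le
    filter_upwards [eventually_ge_atTop (((s n₀).T : ℤ) : ℝ)] with Q hQ
    have hm1 : (s n₀).T ≤ ⌊Q⌋ := Int.le_floor.2 hQ
    -- the block of `⌊Q⌋`
    obtain ⟨n, hn1, hn2, hn3⟩ : ∃ n, n₀ ≤ n ∧ (s n).T ≤ ⌊Q⌋ ∧ ⌊Q⌋ < (s (n + 1)).T := by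
      have hex : ∃ k : ℕ, ⌊Q⌋ < (s k).T := by
        refine ⟨⌊Q⌋.toNat, ?_⟩
        have := hTn ⌊Q⌋.toNat
        have h2 := Int.self_le_toNat ⌊Q⌋
        omega
      classical
      have hk := Nat.find_spec hex
      have hk0 : n₀ < Nat.find hex := by
        by_contra hcon
        push Not at hcon
        have h9 : (s (Nat.find hex)).T ≤ (s n₀).T := hTmono.monotone hcon
        omega
      refine ⟨Nat.find hex - 1, by omega, ?_, ?_⟩
      · have := Nat.find_min hex (m := Nat.find hex - 1) (by omega)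
        omega
      · rw [Nat.sub_add_cancel (by omega)]
        exact hk
    obtain ⟨q, hq1, hq2, hq3⟩ := (hbox n).1 ⌊Q⌋ hn2 hn3
    have hfl := Int.floor_le Q
    have hfl2 := (Int.lt_floor_add_one Q).le
    have h1 := H372R3.MD.mQ_le x y Q q hq1 (by
      have : (q : ℝ) ≤ (⌊Q⌋ : ℝ) := by exact_mod_cast hq2
      linarith)
    have h2 := H372R3.MD.mQ_nonneg x y Q
    have h3 : (0 : ℝ) ≤ (⌊Q⌋ : ℝ) + 1 := by
      have h4 := hT1 n₀
      have h5 : (0 : ℤ) ≤ ⌊Q⌋ + 1 := by omega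
      exact_mod_cast h5
    have h4 : 1 / ((n : ℝ) + 1) ≤ ε := by
      refine le_trans ?_ hn₀.le
      apply one_div_le_one_div_of_le (by positivity)
      have : (n₀ : ℝ) ≤ n := by exact_mod_cast hn1
      linarith
    calc Q * H372R3.MD.mQ x y Q ≤ ((⌊Q⌋ : ℝ) + 1) * H372R3.MD.mQ x y Q :=
          mul_le_mul_of_nonneg_right hfl2 h2
      _ ≤ ((⌊Q⌋ : ℝ) + 1) * (nn (q * x) * nn (q * y)) := mul_le_mul_of_nonneg_left h1 h3
      _ ≤ v + ε := by linarith
  · refine le_of_forall_pos_le_add fun ε hε => ?_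
    obtain ⟨n₀, hn₀⟩ := exists_nat_one_div_lt hε
    have key : v - ε ≤ H372R3.MD.LL x y := by
      apply H372R3.MD.le_LL
      rw [frequently_atTop]
      intro a
      set n : ℕ := max n₀ ⌈a⌉₊ with hn
      obtain ⟨m, hm1, hm2, hm3⟩ := (hbox n).2
      have hTn' := hTn n
      have hT1' := hT1 n
      have hm0 : (1 : ℝ) ≤ m := by
        have : 1 ≤ m := hT1'.trans hm1
        exact_mod_cast this
      have ham : a ≤ m := by
        have h1 : a ≤ (⌈a⌉₊ : ℝ) := Nat.le_ceil a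
        have h2 : ((⌈a⌉₊ : ℕ) : ℝ) ≤ (n : ℝ) := by exact_mod_cast le_max_right n₀ ⌈a⌉₊
        have h3 : (n : ℝ) ≤ m := by
          have : (n : ℤ) ≤ m := by omega
          exact_mod_cast this
        linarith
      refine ⟨(m : ℝ), ham, ?_⟩
      have h4 : 1 / ((n : ℝ) + 1) ≤ ε := by
        refine le_trans ?_ hn₀.le
        apply one_div_le_one_div_of_le (by positivity)
        have : (n₀ : ℝ) ≤ n := by exact_mod_cast le_max_left n₀ ⌈a⌉₊
        linarith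
      have h5 : (v - ε) / m ≤ H372R3.MD.mQ x y m := by
        apply H372R3.MD.le_mQ _ _ _ _ hm0
        intro q hq1 hq2
        have hq2' : q ≤ m := by exact_mod_cast hq2
        have h6 := hm3 q hq1 hq2'
        rw [div_le_iff₀ (by linarith), mul_comm]
        exact (by linarith : v - ε ≤ v - 1 / ((n : ℝ) + 1)).trans h6.le
      rw [div_le_iff₀ (by linarith), mul_comm] at h5
      exact h5
    linarith

end Pool.Agent.TH367.MDSAsm
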