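import Pool.Agent.TH37.SD.Defs

/-!
# MP_41f637_al: free products with free groups of exponent `p` (job SD-C1, helper367)
-/

set_option autoImplicit false

namespace Pool.Agent.TH367.SDFP

open Pool.Agent.TH37.SD Pool.Agent.TH54.BU

/-- the statement for one `n` -/
def Stp (p : ℕ) (C : Type) [Group C] (z : C) (n : ℕ) : Prop :=
  ∃ (P : Type) (_ : Group P) (j : C →* P) (x : Fin n → P),
    (∀ g : P, g ^ p = 1) ∧ j z = 1 ∧ (∀ c, j c = 1 → c ∈ Subgroup.zpowers z) ∧
    (∀ (Q : Type) [Group Q], (∀ q : Q, q ^ p = 1) → ∀ f : C →* Q, f z = 1 → ∀ q : Fin n → Q,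
      ∃ F : P →* Q, (∀ c, F (j c) = f c) ∧ ∀ i, F (x i) = q i) ∧
    ∀ κ : P → ZMod p, KF p κ → PK p j z κ →
      ∃ (C0 : Type) (_ : Group C0) (ι : C →* C0) (xh : Fin n → C0) (π : C0 →* P),
        Function.Injective ι ∧ AE p π (ι z) ∧ (∀ c, π (ι c) = j c) ∧ (∀ i, π (xh i) = x i) ∧
        PK p π (ι z) κ

theorem base {p : ℕ} {C : Type} [Group C] {z : C} (h : AT p z) : Stp p C z 0 := by
  have hn : (Subgroup.zpowers z).Normal := by
    refine ⟨fun a ha g => ?_⟩
    obtain ⟨m, rfl⟩ := Subgroup.mem_zpowers_iff.1 ha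
    have h1 : Commute g z := h.cen g
    have h2 : g * z ^ m = z ^ m * g := (h1.zpow_right m).eq
    rw [h2, mul_inv_cancel_right]
    exact ha
  refine ⟨C ⧸ Subgroup.zpowers z, inferInstance, QuotientGroup.mk' _, Fin.elim0, ?_, ?_, ?_, ?_,
    ?_⟩
  · intro g
    obtain ⟨a, rfl⟩ := QuotientGroup.mk_surjective g
    rw [← QuotientGroup.mk_pow, QuotientGroup.eq_one_iff]
    by_cases ha : a ∈ Subgroup.zpowers z
    · exact Subgroup.pow_mem _ ha p
    · obtain ⟨k, hk, _⟩ := h.pw a ha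
      rw [hk]
      exact Subgroup.zpow_mem _ (Subgroup.mem_zpowers z) k
  · rw [QuotientGroup.mk'_apply, QuotientGroup.eq_one_iff]
    exact Subgroup.mem_zpowers z
  · intro c hc
    rw [QuotientGroup.mk'_apply, QuotientGroup.eq_one_iff] at hc
    exact hc
  · intro Q _ _ f hf q
    refine ⟨QuotientGroup.lift (Subgroup.zpowers z) f ?_, ?_, fun i => i.elim0⟩
    · intro a ha
      obtain ⟨m, rfl⟩ := Subgroup.mem_zpowers_iff.1 ha
      rw [MonoidHom.mem_ker, map_zpow, hf, one_zpow]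
    · intro c
      rfl
  · intro κ _ hPK
    refine ⟨C, inferInstance, MonoidHom.id C, Fin.elim0, QuotientGroup.mk' _,
      Function.injective_id, ?_, fun c => rfl, fun i => i.elim0, hPK⟩
    refine ⟨QuotientGroup.mk'_surjective _, QuotientGroup.ker_mk' _, h.cen, h.zp, h.z1, ?_⟩
    intro a ha
    refine h.pw a fun hm => ha ?_
    rw [QuotientGroup.mk'_apply, QuotientGroup.eq_one_iff]
    exact hm

section Step

variable (P : Type) [Group P]

/-- the free product with an infinite cyclic group -/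
abbrev Gm : Type := HNNExtension P ⊥ ⊥ (MulEquiv.refl (⊥ : Subgroup P))

/-- homomorphisms to groups of exponent `p` -/
theorem gm_lift {p : ℕ} {Q : Type} [Group Q] (hQ : ∀ q : Q, q ^ p = 1) (f : P →* Q) (q : Q) :
    ∃ F : (Gm P ⧸ powSub (Gm P) p) →* Q,
      (∀ a : P, F ((HNNExtension.of a : Gm P) : Gm P ⧸ powSub (Gm P) p) = f a) ∧
      F ((HNNExtension.t : Gm P) : Gm P ⧸ powSub (Gm P) p) = q := by
  let F0 : Gm P →* Q := HNNExtension.lift f q (by
    rintro ⟨a, ha⟩
    rw [Subgroup.mem_bot] at ha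
    subst ha
    simp)
  have hk : powSub (Gm P) p ≤ F0.ker := by
    refine Subgroup.normalClosure_le_normal ?_
    rintro _ ⟨g, rfl⟩
    show g ^ p ∈ F0.ker
    rw [MonoidHom.mem_ker, map_pow, hQ]
  refine ⟨QuotientGroup.lift _ F0 hk, ?_, ?_⟩
  · intro a
    show F0 (HNNExtension.of a) = f a
    exact HNNExtension.lift_of _ _ _ _
  · show F0 HNNExtension.t = q
    exact HNNExtension.lift_t _ _ _

end Step

theorem exp_quot {G : Type} [Group G] (p : ℕ) (g : G ⧸ powSub G p) : g ^ p = 1 := by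
  obtain ⟨a, rfl⟩ := QuotientGroup.mk_surjective g
  rw [← QuotientGroup.mk_pow, QuotientGroup.eq_one_iff]
  exact Subgroup.subset_normalClosure ⟨a, rfl⟩

theorem zpow_cast {p : ℕ} (hp : p.Prime) {G : Type} [Group G] {z : G} (h1 : z ^ p = 1)
    (h2 : z ≠ 1) {k l : ℤ} (h : z ^ k = z ^ l) : (k : ZMod p) = l := by
  have := Fact.mk hp
  have ho : orderOf z = p := orderOf_eq_prime h1 h2
  rw [ZMod.intCast_eq_intCast_iff, ← ho]
  exact zpow_eq_zpow_iff_modEq.1 h

theorem step {p : ℕ} (hp : p.Prime)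
    (hC : ∀ (C L : Type) [Group C] [Group L] (π : C →* L) (z : C), AE p π z →
  ∀ (U V : Subgroup L) (ψ : U ≃* V) (Uh Vh : Subgroup C) (ψh : Uh ≃* Vh)
  (_ : ∀ c, c ∈ Uh ↔ π c ∈ U) (_ : ∀ c, c ∈ Vh ↔ π c ∈ V)
  (_ : ∀ (c : Uh) (h : π (c : C) ∈ U), π (ψh c : C) = (ψ ⟨π (c : C), h⟩ : L))
  (_ : ∀ hz : z ∈ Uh, (ψh ⟨z, hz⟩ : C) = z),
  Mal U → Mal V → Pool.Agent.TH37.SD.Sep U V →
  ∀ E : HNNExtension L U V ψ → ℤ → Prop, Cls p E →
  (∀ c : C, π c ≠ 1 → ∃ k : ℤ, c ^ p = z ^ k ∧ E (HNNExtension.of (π c)) k) →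
  ∃ (C' : Type) (_ : Group C')
    (π' : C' →* HNNExtension L U V ψ ⧸ powSub (HNNExtension L U V ψ) p) (ι : C →* C') (t' : C'),
    Function.Surjective π' ∧ π'.ker = Subgroup.zpowers (ι z) ∧ (∀ a, a * ι z = ι z * a) ∧
    Function.Injective ι ∧
    (∀ c, π' (ι c) = ((HNNExtension.of (π c) : HNNExtension L U V ψ) : _ ⧸ _)) ∧
    π' t' = ((HNNExtension.t : HNNExtension L U V ψ) : _ ⧸ _) ∧
    (∀ c : Uh, t' * ι c * t'⁻¹ = ι (ψh c : C)) ∧
    (∀ c' : C', π' c' ≠ 1 → ∃ (g : HNNExtension L U V ψ) (k : ℤ),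
      ((g : HNNExtension L U V ψ) : _ ⧸ powSub (HNNExtension L U V ψ) p) = π' c' ∧
        c' ^ p = ι z ^ k ∧ E g k) ∧
    (∀ l : L, (HNNExtension.of l : HNNExtension L U V ψ) ∈ powSub (HNNExtension L U V ψ) p →
      l = 1) ∧
    (∀ (x x' : L) (y : HNNExtension L U V ψ), x' ≠ 1 →
      y * HNNExtension.of x * y⁻¹ * (HNNExtension.of x')⁻¹ ∈ powSub (HNNExtension L U V ψ) p →
      ∃ m ∈ powSub (HNNExtension L U V ψ) p,
        (m * y) * HNNExtension.of x * (m * y)⁻¹ = HNNExtension.of x'))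
    {C : Type} [Group C] {z : C} {n : ℕ} (h : Stp p C z n) : Stp p C z (n + 1) := by
  have := Fact.mk hp
  obtain ⟨P, hP, j, x, hexp, hjz, hker, huniv, hext⟩ := h
  let mk : Gm P →* Gm P ⧸ powSub (Gm P) p := QuotientGroup.mk' _
  let inc : P →* Gm P ⧸ powSub (Gm P) p := mk.comp HNNExtension.of
  have hinc : ∀ a : P, inc a = 1 → a = 1 := by
    intro a ha
    obtain ⟨F, hF, _⟩ := gm_lift P hexp (MonoidHom.id P) (1 : P)
    have h1 := hF a
    have h2 : ((HNNExtension.of a : Gm P) : Gm P ⧸ powSub (Gm P) p) = 1 := ha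
    rw [h2, map_one] at h1
    exact h1.symm
  refine ⟨Gm P ⧸ powSub (Gm P) p, inferInstance, inc.comp j,
    fun i => if hi : i.val < n then inc (x ⟨i.val, hi⟩) else mk HNNExtension.t,
    exp_quot p, ?_, ?_, ?_, ?_⟩
  · rw [MonoidHom.comp_apply, hjz, map_one]
  · intro c hc
    exact hker c (hinc _ hc)
  · intro Q _ hQ f hf q
    obtain ⟨Fn, hFn, hFx⟩ := huniv Q hQ f hf (fun i => q i.castSucc)
    obtain ⟨F, hF, hFt⟩ := gm_lift P hQ Fn (q (Fin.last n))
    refine ⟨F, ?_, ?_⟩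
    · intro c
      exact (hF (j c)).trans (hFn c)
    · intro i
      by_cases hi : i.val < n
      · simp only [dif_pos hi]
        refine (hF _).trans ((hFx _).trans ?_)
        rfl
      · simp only [dif_neg hi]
        refine hFt.trans ?_
        congr 1
        apply Fin.ext
        have := i.isLt
        simp only [Fin.val_last]
        omega
  · intro κ hκ hPK
    have hκn : KF p (fun a : P => κ (inc a)) := by
      refine ⟨?_, ?_⟩
      · intro g u i
        simp only [map_mul, map_zpow, map_inv]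
        exact hκ.pw _ _ _
      · intro g hg
        exact hinc g (hκ.nd _ hg)
    obtain ⟨Cn, hCn, ιn, xn, πn, hinj, hAE, hπι, hπx, hPKn⟩ := hext _ hκn hPK
    have hbot : Mal (⊥ : Subgroup P) := by
      intro a ha h1
      exact absurd (Subgroup.mem_bot.1 ha) h1
    have hsep : Pool.Agent.TH37.SD.Sep (⊥ : Subgroup P) (⊥ : Subgroup P) := by
      intro a ha h1
      exact absurd (Subgroup.mem_bot.1 ha) h1
    have hcls : Cls p (fun (g : Gm P) (k : ℤ) => (k : ZMod p) = κ (mk g)) := by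
      refine ⟨?_, ?_, ?_⟩
      · intro g
        exact ZMod.intCast_surjective _
      · intro g u k i _ hk
        simp only [map_mul, map_zpow, map_inv]
        rw [hκ.pw, ← hk]
        push_cast
        ring
      · intro g m k hm hk
        have h1 : mk m = 1 := (QuotientGroup.eq_one_iff m).2 hm
        simp only [map_mul, h1, mul_one]
        exact hk
    have hcond : ∀ c : Cn, πn c ≠ 1 → ∃ k : ℤ, c ^ p = (ιn z) ^ k ∧
        ((k : ZMod p) = κ (mk (HNNExtension.of (πn c)))) := by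
      intro c hc
      obtain ⟨k, hk, _⟩ := hAE.pw c hc
      exact ⟨k, hk, hPKn c k hk⟩
    obtain ⟨C', hC', π', ι', t', hsur, hkr, hcen, hinj', hπ', hπt, _, hpw, _, _⟩ :=
      hC Cn P πn (ιn z) hAE ⊥ ⊥ (MulEquiv.refl _) ((⊥ : Subgroup P).comap πn)
        ((⊥ : Subgroup P).comap πn) (MulEquiv.refl _) (fun c => Iff.rfl) (fun c => Iff.rfl)
        (fun c _ => rfl) (fun _ => rfl) hbot hbot hsep
        (fun (g : Gm P) (k : ℤ) => (k : ZMod p) = κ (mk g)) hcls hcond
    have hzp : (ι' (ιn z)) ^ p = 1 := by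
      rw [← map_pow, hAE.zp, map_one]
    have hz1 : ι' (ιn z) ≠ 1 := by
      intro h1
      exact hAE.z1 (hinj' (h1.trans (map_one ι').symm))
    have hκ1 : κ 1 = 0 := by
      have h1 := hκ.pw 1 1 0
      simpa using h1
    refine ⟨C', hC', ι'.comp ιn, fun i => if hi : i.val < n then ι' (xn ⟨i.val, hi⟩) else t',
      π', ?_, ?_, ?_, ?_, ?_⟩
    · intro a b hab
      exact hinj (hinj' hab)
    · refine ⟨hsur, hkr, hcen, hzp, hz1, ?_⟩
      intro a ha
      obtain ⟨g, k, hg, hk, hE⟩ := hpw a ha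
      refine ⟨k, hk, fun hdvd => ha ?_⟩
      apply hκ.nd
      have h1 : (k : ZMod p) = κ (mk g) := hE
      have h2 : mk g = π' a := hg
      rw [← h2, ← h1]
      exact (ZMod.intCast_zmod_eq_zero_iff_dvd k p).2 hdvd
    · intro c
      show π' (ι' (ιn c)) = inc (j c)
      rw [hπ', hπι]
      rfl
    · intro i
      by_cases hi : i.val < n
      · simp only [dif_pos hi]
        rw [hπ', hπx]
        rfl
      · simp only [dif_neg hi]
        exact hπt
    · intro a k' hk'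
      have hk2 : a ^ p = (ι' (ιn z)) ^ k' := hk'
      by_cases ha : π' a = 1
      · have h1 : a ∈ π'.ker := ha
        rw [hkr] at h1
        obtain ⟨m, rfl⟩ := Subgroup.mem_zpowers_iff.1 h1
        rw [ha, hκ1]
        have h3 : (ι' (ιn z)) ^ k' = (ι' (ιn z)) ^ (0 : ℤ) := by
          rw [← hk2, zpow_zero, ← zpow_natCast, ← zpow_mul, mul_comm, zpow_mul, zpow_natCast,
            hzp, one_zpow]
        have h4 := zpow_cast hp hzp hz1 h3
        simpa using h4
      · obtain ⟨g, k, hg, hk, hE⟩ := hpw a ha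
        have h1 : (k : ZMod p) = κ (mk g) := hE
        have h2 : mk g = π' a := hg
        rw [← h2, ← h1]
        exact zpow_cast hp hzp hz1 (hk2.symm.trans hk)

end Pool.Agent.TH367.SDFP

namespace Pool.Agent.TH367

open Pool.Agent.TH37.SD Pool.Agent.TH54.BU

theorem fp (hC : CoreStmt) : FPStmt := by
  obtain ⟨p0, h0⟩ := hC
  refine ⟨p0, fun p hp hle C _ z hz n => ?_⟩
  have key : ∀ n, SDFP.Stp p C z n := by
    intro n
    induction n with
    | zero => exact SDFP.base hz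
    | succ n ih => exact SDFP.step hp (h0 p hp hle) ih
  exact key n

end Pool.Agent.TH367
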