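import Pool.Agent.TH605.AP.WF

/-! Job 2841 (AP-S1): vectors of the nested discs. -/

set_option autoImplicit false

open Set Topology Filter

namespace Pool.Agent.TH367.J2841

open Pool.Agent.TH605.AP

/-- the combination `a vD 0 + b vD 1 + c vD 2 + d vD 3` -/
noncomputable def cv (n : Fin 4 → ℝ) : HV :=
  ⟨2 * n 2 + 2 * n 3, n 0 - n 1 + n 2 + n 3, -2 * n 2, 2 * n 0 + 2 * n 2⟩

/-- the action of the reflection `i` on coefficients -/
noncomputable def rc (i : Fin 4) (n : Fin 4 → ℝ) : Fin 4 → ℝ :=
  Function.update n i (2 * (n 0 + n 1 + n 2 + n 3) - 3 * n i)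

theorem refl_cv (i : Fin 4) (n : Fin 4 → ℝ) : Pool.Agent.TH605.AP.refl (vD i) (cv n) = cv (rc i n) := by
  fin_cases i <;>
    simp [Pool.Agent.TH605.AP.refl, vD, cv, rc, ip, Function.update] <;>
    (try refine ⟨?_, ?_⟩) <;> (try refine ⟨?_, ?_⟩) <;> (try refine ⟨?_, ?_⟩) <;> (try ring)

theorem vD_cv (i : Fin 4) : vD i = cv (Function.update (fun _ => 0) i 1) := by
  fin_cases i <;> simp [vD, cv, Function.update]

theorem ip_cv (i : Fin 4) (n : Fin 4 → ℝ) : ip (cv (rc i n)) (cv (rc i n)) = ip (cv n) (cv n) := by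
  fin_cases i <;>
    simp [cv, rc, ip, Function.update] <;> ring

theorem main (B : BF) : ∀ (t : List (Fin 4)) (h : Fin 4), IsRed (h :: t) →
    ∃ n : Fin 4 → ℝ, (∀ j, 0 ≤ n j) ∧ (∀ j, j ≠ h → n j + 1 ≤ n h) ∧
      ((h :: t).length : ℝ) ≤ n h ∧ ip (cv n) (cv n) = 1 ∧ DL (h :: t) = {z | E (cv n) z ≤ 0} ∧
      (2 ≤ (h :: t).length → ((h :: t).length : ℝ) ≤ (cv n).k + (cv n).c) := by
  intro t
  induction t with
  | nil =>
    intro h _
    refine ⟨Function.update (fun _ => 0) h 1, ?_, ?_, ?_, ?_, ?_, ?_⟩
    · intro j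
      by_cases hj : j = h
      · subst hj; simp
      · simp [Function.update_of_ne hj]
    · intro j hj
      simp [Function.update_of_ne hj]
    · simp
    · rw [← vD_cv]
      fin_cases h <;> norm_num [vD, ip]
    · rw [← vD_cv]; rfl
    · intro h2; simp at h2
  | cons g t ih =>
    intro i hr
    have hr' : i ≠ g ∧ IsRed (g :: t) := by
      unfold IsRed at hr ⊢
      rw [List.isChain_cons_cons] at hr
      exact hr
    obtain ⟨n, h0, h1, h2, h3, h4, -⟩ := ih g hr'.2
    have hi : (rc i n) i = 2 * (n 0 + n 1 + n 2 + n 3) - 3 * n i := by simp [rc]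
    have hne : ∀ j, j ≠ i → (rc i n) j = n j := fun j hj => by
      simp [rc, Function.update_of_ne hj]
    have hig := h1 i hr'.1
    have key : n g + 1 ≤ (rc i n) i := by
      rw [hi]
      have a0 := h0 0
      have a1 := h0 1
      have a2 := h0 2
      have a3 := h0 3
      have hgi := hr'.1
      revert hig hgi
      fin_cases i <;> fin_cases g <;> simp <;> intro hig <;> linarith
    have hnn : ∀ j, 0 ≤ (rc i n) j := by
      intro j
      by_cases hj : j = i
      · subst hj
        have := h0 g
        linarith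
      · rw [hne j hj]; exact h0 j
    have hlen : ((i :: g :: t).length : ℝ) ≤ (rc i n) i := by
      have : ((i :: g :: t).length : ℝ) = ((g :: t).length : ℝ) + 1 := by
        simp only [List.length_cons]; push_cast; ring
      rw [this]; linarith
    refine ⟨rc i n, hnn, ?_, hlen, ?_, ?_, ?_⟩
    · intro j hj
      rw [hne j hj]
      by_cases hjg : j = g
      · subst hjg; exact key
      · have := h1 j hjg
        linarith
    · rw [ip_cv]; exact h3
    · change s i '' DL (g :: t) = _
      rw [h4]
      ext z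
      constructor
      · rintro ⟨y, hy, rfl⟩
        obtain ⟨μ, hμ, he⟩ := B.E_s i (cv n) (s i y)
        rw [B.s_s, refl_cv] at he
        change E (cv (rc i n)) (s i y) ≤ 0
        change E (cv n) y ≤ 0 at hy
        rw [he] at hy
        by_contra hc
        push Not at hc
        have := mul_pos hμ hc
        linarith
      · intro hz
        change E (cv (rc i n)) z ≤ 0 at hz
        refine ⟨s i z, ?_, B.s_s i z⟩
        obtain ⟨μ, hμ, he⟩ := B.E_s i (cv n) z
        rw [refl_cv] at he
        change E (cv n) (s i z) ≤ 0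
        rw [he]
        exact mul_nonpos_of_nonneg_of_nonpos hμ.le hz
    · intro _
      have b0 := hnn 0
      have b1 := hnn 1
      have b2 := hnn 2
      have b3 := hnn 3
      have hkc : (cv (rc i n)).k + (cv (rc i n)).c =
          2 * (rc i n) 0 + 4 * (rc i n) 2 + 2 * (rc i n) 3 := by
        simp only [cv]; ring
      rw [hkc]
      refine hlen.trans ?_
      by_cases h1i : i = 1
      · subst h1i
        rw [hi, hne 0 (by decide), hne 2 (by decide), hne 3 (by decide)]
        have a0 := h0 0
        have a1 := h0 1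
        have a2 := h0 2
        have a3 := h0 3
        linarith
      · revert h1i
        fin_cases i <;> simp <;> simp at b0 b1 b2 b3 <;> linarith

theorem DL_vec (B : BF) (w : List (Fin 4)) (hw : IsRed w) (h2 : 2 ≤ w.length) :
    ∃ V : HV, DL w = {z | E V z ≤ 0} ∧ ip V V = 1 ∧ 0 ≤ V.k ∧ 0 ≤ V.c ∧
      (w.length : ℝ) ≤ V.k + V.c := by
  cases w with
  | nil => simp at h2
  | cons h t =>
    obtain ⟨n, h0, -, -, h3, h4, h5⟩ := main B t h hw
    refine ⟨cv n, h4, h3, ?_, ?_, h5 h2⟩
    · have a2 := h0 2
      have a3 := h0 3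
      simp only [cv]; linarith
    · have a0 := h0 0
      have a2 := h0 2
      simp only [cv]; linarith

end Pool.Agent.TH367.J2841
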