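import Pool.Agent.TH28.FL.Dat

/-!
# Spaces of forms stable under `act a` are stable under `exp (ad a)` (job FL2-EXPM for helper28)
-/

set_option autoImplicit false

universe u v

namespace Pool.Agent.TH367.FL

open Pool.Agent.TH28.FL Module

variable {K : Type u} {L : Type v} [Field K] [LieRing L] [LieAlgebra K L] {m : ℕ}

/-- composition in the `i`-th argument -/
noncomputable def T (i : Fin m) (A : Module.End K L) : Module.End K (Frm K L m) :=
  MultilinearMap.compLinearMapₗ (Function.update (fun _ => LinearMap.id) i A)

theorem T_apply (i : Fin m) (A : Module.End K L) (F : Frm K L m) (x : Fin m → L) :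
    T i A F x = F (Function.update x i (A (x i))) := by
  unfold T
  rw [MultilinearMap.compLinearMapₗ_apply, MultilinearMap.compLinearMap_apply]
  congr 1
  funext j
  by_cases h : j = i
  · subst h; simp
  · simp [Function.update_of_ne h]

theorem T_mul (i : Fin m) (A B : Module.End K L) :
    T (K := K) i A * T i B = T i (B * A) := by
  ext F x
  rw [Module.End.mul_apply, T_apply, T_apply, T_apply, Function.update_self,
    Function.update_idem, Module.End.mul_apply]

theorem T_comm {i j : Fin m} (hij : i ≠ j) (A B : Module.End K L) :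
    Commute (T (K := K) i A) (T j B) := by
  show T (K := K) i A * T j B = T j B * T i A
  ext F x
  rw [Module.End.mul_apply, Module.End.mul_apply, T_apply, T_apply, T_apply, T_apply,
    Function.update_of_ne hij.symm, Function.update_of_ne hij, Function.update_comm hij]

theorem T_one (i : Fin m) : T (K := K) (L := L) i 1 = 1 := by
  ext F x
  rw [T_apply, Module.End.one_apply, Module.End.one_apply, Function.update_eq_self]

theorem T_pow (i : Fin m) (A : Module.End K L) (n : ℕ) : T (K := K) i (A ^ n) = T i A ^ n := by
  induction n with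
  | zero => rw [pow_zero, pow_zero, T_one]
  | succ n ih => rw [pow_succ', pow_succ, ← T_mul, ih]

theorem T_sum (i : Fin m) (s : Finset ℕ) (c : ℕ → K) (B : ℕ → Module.End K L) :
    T (K := K) i (∑ j ∈ s, c j • B j) = ∑ j ∈ s, c j • T i (B j) := by
  classical
  induction s using Finset.induction_on with
  | empty =>
    ext F x
    rw [Finset.sum_empty, Finset.sum_empty, T_apply]
    simp only [LinearMap.zero_apply, _root_.zero_apply]
    exact F.map_coord_zero i (by simp)
  | insert a s ha ih =>
    rw [Finset.sum_insert ha, Finset.sum_insert ha, ← ih]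
    ext F x
    rw [LinearMap.add_apply, _root_.add_apply, LinearMap.smul_apply,
      _root_.smul_apply, T_apply, T_apply, T_apply, LinearMap.add_apply,
      LinearMap.smul_apply, F.map_update_add, F.map_update_smul]

theorem T_zero (i : Fin m) : T (K := K) (L := L) i 0 = 0 := by
  ext F x
  rw [T_apply]
  simp only [LinearMap.zero_apply, _root_.zero_apply]
  exact F.map_coord_zero i (by simp)

/-- the action as a sum -/
theorem act_eq (a : L) (F : Frm K L m) :
    act K a F = (∑ i, T i (LieAlgebra.ad K L a)) F := by
  rw [LinearMap.sum_apply]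
  rfl

variable [CharZero K]

theorem T_expA [FiniteDimensional K L] (a : L) (ha : IsNilpotent (LieAlgebra.ad K L a))
    (i : Fin m) : T (K := K) i (expA K a) = IsNilpotent.exp (T i (LieAlgebra.ad K L a)) := by
  have h1 : (LieAlgebra.ad K L a) ^ (finrank K L + 1) = 0 := by
    obtain ⟨k, hk⟩ := ha
    have h0 : (LieAlgebra.ad K L a) ^ (finrank K L) = 0 := by
      rw [← LinearMap.ker_eq_top, eq_top_iff]
      refine le_trans ?_ (Module.End.ker_pow_le_ker_pow_finrank _ k)
      rw [hk, LinearMap.ker_zero]
    rw [pow_succ, h0, zero_mul]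
  have h2 : (T (K := K) i (LieAlgebra.ad K L a)) ^ (finrank K L + 1) = 0 := by
    rw [← T_pow, h1, T_zero]
  rw [IsNilpotent.exp_eq_sum h2]
  unfold expA
  rw [T_sum]
  refine Finset.sum_congr rfl fun j _ => ?_
  rw [T_pow, ← Rat.cast_smul_eq_qsmul K]
  push_cast
  rfl

omit [CharZero K] in
theorem T_nil (a : L) (ha : IsNilpotent (LieAlgebra.ad K L a)) (i : Fin m) :
    IsNilpotent (T (K := K) i (LieAlgebra.ad K L a)) := by
  obtain ⟨k, hk⟩ := ha
  exact ⟨k, by rw [← T_pow, hk, T_zero]⟩

omit [CharZero K] in
theorem sum_nil (a : L) (ha : IsNilpotent (LieAlgebra.ad K L a)) (s : Finset (Fin m)) :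
    IsNilpotent (∑ i ∈ s, T (K := K) i (LieAlgebra.ad K L a)) ∧
      ∀ j ∉ s, Commute (T (K := K) j (LieAlgebra.ad K L a))
        (∑ i ∈ s, T (K := K) i (LieAlgebra.ad K L a)) := by
  classical
  have hc : ∀ (s : Finset (Fin m)), ∀ j ∉ s, Commute (T (K := K) j (LieAlgebra.ad K L a))
        (∑ i ∈ s, T (K := K) i (LieAlgebra.ad K L a)) := by
    intro s j hj
    refine Commute.sum_right _ _ _ fun i hi => ?_
    refine T_comm ?_ _ _
    rintro rfl
    exact hj hi
  refine ⟨?_, hc s⟩
  induction s using Finset.induction_on with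
  | empty => rw [Finset.sum_empty]; exact IsNilpotent.zero
  | insert i s hi ih =>
    rw [Finset.sum_insert hi]
    exact (hc s i hi).isNilpotent_add (T_nil a ha i) ih

/-- the exponential of the partial sums -/
theorem exp_partial [FiniteDimensional K L] (a : L) (ha : IsNilpotent (LieAlgebra.ad K L a))
    (s : Finset (Fin m)) (F : Frm K L m) (x : Fin m → L) :
    (IsNilpotent.exp (∑ i ∈ s, T (K := K) i (LieAlgebra.ad K L a)) F) x =
      F (fun i => if i ∈ s then expA K a (x i) else x i) := by
  classical
  induction s using Finset.induction_on generalizing x with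
  | empty =>
    rw [Finset.sum_empty, IsNilpotent.exp_zero, Module.End.one_apply]
    simp
  | insert i s hi ih =>
    obtain ⟨h1, h2⟩ := sum_nil a ha s
    rw [Finset.sum_insert hi, IsNilpotent.exp_add_of_commute (h2 i hi) (T_nil a ha i) h1,
      Module.End.mul_apply, ← T_expA a ha i, T_apply, ih]
    congr 1
    funext j
    by_cases hj : j = i
    · subst hj
      rw [if_neg hi, Function.update_self, if_pos (Finset.mem_insert_self j s)]
    · rw [Function.update_of_ne hj]
      by_cases hjs : j ∈ s
      · rw [if_pos hjs, if_pos (Finset.mem_insert_of_mem hjs)]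
      · rw [if_neg hjs, if_neg (fun h => hjs ((Finset.mem_insert.1 h).resolve_left hj))]

theorem expm : Pool.Agent.TH28.FL.S_EXPM.{u, v} := by
  intro K _ _ L _ _ _ a ha m V hV F hF
  have h1 : F.compLinearMap (fun _ => expA K a) =
      IsNilpotent.exp (∑ i, T (K := K) i (LieAlgebra.ad K L a)) F := by
    ext x
    rw [exp_partial a ha Finset.univ F x, MultilinearMap.compLinearMap_apply]
    simp
  have hpow : ∀ n : ℕ, ((∑ i, T (K := K) i (LieAlgebra.ad K L a)) ^ n) F ∈ V := by
    intro n
    induction n with
    | zero => rw [pow_zero]; exact hF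
    | succ n ih =>
      rw [pow_succ', Module.End.mul_apply, ← act_eq]
      exact hV _ ih
  rw [h1]
  unfold IsNilpotent.exp
  rw [LinearMap.sum_apply]
  refine Submodule.sum_mem _ fun n _ => ?_
  rw [LinearMap.smul_apply, ← Rat.cast_smul_eq_qsmul K]
  exact V.smul_mem _ (hpow n)

end Pool.Agent.TH367.FL
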