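import Mathlib

/-!
# Two-variable Fourier identity for absolutely summable cosine series (job BM-2 for helper328)
-/

set_option autoImplicit false

namespace Pool.Agent.TH367.BM

open Filter Topology MeasureTheory

/-- the characters of the circle -/
noncomputable def ch (n : ℤ) (θ : ℝ) : ℂ := Complex.exp (((n * θ : ℝ) : ℂ) * Complex.I)

theorem ch_add (m n : ℤ) (θ : ℝ) : ch (m + n) θ = ch m θ * ch n θ := by
  unfold ch
  rw [← Complex.exp_add]
  congr 1
  push_cast
  ring

theorem ch_norm (n : ℤ) (θ : ℝ) : ‖ch n θ‖ = 1 := Complex.norm_exp_ofReal_mul_I _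

theorem ch_zero (θ : ℝ) : ch 0 θ = 1 := by
  unfold ch
  simp

theorem ch_sub (n : ℤ) (θ φ : ℝ) : ch n (θ - φ) = ch n θ * ch (-n) φ := by
  unfold ch
  rw [← Complex.exp_add]
  congr 1
  push_cast
  ring

theorem ch_cont (n : ℤ) : Continuous (ch n) := by
  unfold ch
  fun_prop

theorem int_ch (n : ℤ) : ∫ φ in (0 : ℝ)..(2 * Real.pi), ch n φ =
    if n = 0 then ((2 * Real.pi : ℝ) : ℂ) else 0 := by
  split_ifs with h
  · subst h
    simp only [ch_zero]
    simp
  · have hn : ((n : ℂ) * Complex.I) ≠ 0 := by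
      apply mul_ne_zero
      · exact_mod_cast h
      · exact Complex.I_ne_zero
    have e1 : ∀ φ : ℝ, ch n φ = Complex.exp (((n : ℂ) * Complex.I) * (φ : ℂ)) := by
      intro φ
      unfold ch
      congr 1
      push_cast
      ring
    simp_rw [e1]
    rw [integral_exp_mul_complex hn]
    have e2 : Complex.exp (((n : ℂ) * Complex.I) * ((2 * Real.pi : ℝ) : ℂ)) = 1 := by
      rw [Complex.exp_eq_one_iff]
      exact ⟨n, by push_cast; ring⟩
    rw [e2]
    simp

/-- uniqueness of the coefficients -/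
theorem uniq {d : ℤ → ℂ} (hd : Summable fun q => ‖d q‖)
    (h : ∀ φ : ℝ, ∑' q, d q * ch q φ = 0) (m : ℤ) : d m = 0 := by
  have key := intervalIntegral.hasSum_integral_of_dominated_convergence
    (μ := volume) (a := 0) (b := 2 * Real.pi) (F := fun q (φ : ℝ) => d q * ch (q - m) φ)
    (f := fun _ => (0 : ℂ)) (fun q _ => ‖d q‖)
    (fun q => (continuous_const.mul (ch_cont _)).aestronglyMeasurable)
    (fun q => Eventually.of_forall fun t _ => by rw [norm_mul, ch_norm, mul_one])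
    (Eventually.of_forall fun t _ => hd)
    intervalIntegrable_const
    (Eventually.of_forall fun t _ => by
      have hs : Summable fun q => d q * ch q t := by
        refine Summable.of_norm ?_
        refine hd.congr fun q => ?_
        rw [norm_mul, ch_norm, mul_one]
      have h1 : HasSum (fun q => d q * ch q t) 0 := by
        rw [← h t]
        exact hs.hasSum
      have h2 := h1.mul_right (ch (-m) t)
      rw [zero_mul] at h2
      have e1 : (fun q => d q * ch q t * ch (-m) t) = fun q => d q * ch (q - m) t := by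
        funext q
        rw [mul_assoc, ← ch_add, sub_eq_add_neg]
      rw [e1] at h2
      exact h2)
  have e2 : ∀ q : ℤ, ∫ t in (0 : ℝ)..(2 * Real.pi), d q * ch (q - m) t =
      if q = m then d m * ((2 * Real.pi : ℝ) : ℂ) else 0 := by
    intro q
    rw [intervalIntegral.integral_const_mul, int_ch]
    by_cases hqm : q = m
    · subst hqm
      rw [if_pos (sub_self q), if_pos rfl]
    · rw [if_neg (fun h' => hqm (sub_eq_zero.1 h')), if_neg hqm, mul_zero]
  simp_rw [e2] at key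
  rw [intervalIntegral.integral_zero] at key
  have h3 := (hasSum_ite_eq m (d m * ((2 * Real.pi : ℝ) : ℂ))).unique key
  rcases mul_eq_zero.1 h3 with h4 | h4
  · exact h4
  · exfalso
    have : (2 * Real.pi : ℝ) = 0 := by exact_mod_cast h4
    have := Real.pi_pos
    linarith

/-- convolution -/
noncomputable def conv (a b : ℤ → ℂ) (p : ℤ) : ℂ := ∑' n : ℤ, a n * b (p - n)

/-- the reindexing -/
def eqv : ℤ × ℤ ≃ ℤ × ℤ where
  toFun := fun p => (p.2, p.1 - p.2)
  invFun := fun q => (q.1 + q.2, q.1)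
  left_inv := fun p => by ext <;> simp
  right_inv := fun q => by ext <;> simp

theorem conv_aux {a b : ℤ → ℂ} (ha : Summable fun k => ‖a k‖) (hb : Summable fun k => ‖b k‖) :
    Summable fun p : ℤ × ℤ => ‖a p.2 * b (p.1 - p.2)‖ := by
  have h1 : Summable fun p : ℤ × ℤ => ‖a p.1 * b p.2‖ := Summable.mul_norm ha hb
  exact eqv.summable_iff.2 h1

theorem conv_summable {a b : ℤ → ℂ} (ha : Summable fun k => ‖a k‖)
    (hb : Summable fun k => ‖b k‖) : Summable fun p => ‖conv a b p‖ := by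
  have h1 := conv_aux ha hb
  refine Summable.of_nonneg_of_le (fun _ => norm_nonneg _) (fun p => ?_) h1.prod
  exact norm_tsum_le_tsum_norm (h1.prod_factor p)

theorem conv_mul {a b : ℤ → ℂ} (ha : Summable fun k => ‖a k‖) (hb : Summable fun k => ‖b k‖)
    (θ : ℝ) : (∑' n, a n * ch n θ) * (∑' m, b m * ch m θ) = ∑' p, conv a b p * ch p θ := by
  have ha' : Summable fun k => ‖a k * ch k θ‖ := ha.congr fun q => by
    rw [norm_mul, ch_norm, mul_one]
  have hb' : Summable fun k => ‖b k * ch k θ‖ := hb.congr fun q => by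
    rw [norm_mul, ch_norm, mul_one]
  rw [tsum_mul_tsum_of_summable_norm ha' hb']
  rw [← eqv.tsum_eq]
  have h1 := conv_aux ha hb
  have h2 : ∀ p : ℤ × ℤ, (a (eqv p).1 * ch (eqv p).1 θ) * (b (eqv p).2 * ch (eqv p).2 θ) =
      a p.2 * b (p.1 - p.2) * ch p.1 θ := by
    intro p
    show (a p.2 * ch p.2 θ) * (b (p.1 - p.2) * ch (p.1 - p.2) θ) = _
    have : ch p.1 θ = ch p.2 θ * ch (p.1 - p.2) θ := by
      rw [← ch_add, add_sub_cancel]
    rw [this]
    ring
  rw [tsum_congr h2]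
  have h3 : Summable fun p : ℤ × ℤ => a p.2 * b (p.1 - p.2) * ch p.1 θ := by
    refine Summable.of_norm (h1.congr fun p => ?_)
    rw [norm_mul (a p.2 * b (p.1 - p.2)), ch_norm, mul_one]
  rw [h3.tsum_prod]
  refine tsum_congr fun p => ?_
  unfold conv
  rw [← tsum_mul_right]

/-- cosine series as exponential series -/
theorem cos_to_ch {h : ℤ → ℝ} (hh : Summable fun k => |h k|) (he : ∀ k, h (-k) = h k)
    {θ s : ℝ} (hH : HasSum (fun k : ℤ => h k * Real.cos (k * θ)) s) :
    ∑' k, (h k : ℂ) * ch k θ = (s : ℂ) := by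
  have h1 : Summable fun k : ℤ => h k * Real.sin (k * θ) := by
    refine Summable.of_norm_bounded hh fun k => ?_
    rw [norm_mul, Real.norm_eq_abs, Real.norm_eq_abs]
    exact mul_le_of_le_one_right (abs_nonneg _) (Real.abs_sin_le_one _)
  have h2 : ∑' k : ℤ, h k * Real.sin (k * θ) = 0 := by
    have h3 := (Equiv.neg ℤ).tsum_eq fun k : ℤ => h k * Real.sin (k * θ)
    have h4 : ∀ k : ℤ, h ((Equiv.neg ℤ) k) * Real.sin (((Equiv.neg ℤ) k : ℤ) * θ) =
        -(h k * Real.sin (k * θ)) := by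
      intro k
      rw [Equiv.neg_apply, he]
      push_cast
      rw [neg_mul, Real.sin_neg]
      ring
    rw [tsum_congr h4, tsum_neg] at h3
    linarith
  have h5 : HasSum (fun k : ℤ => h k * Real.sin (k * θ)) 0 := by
    rw [← h2]
    exact h1.hasSum
  have h6 : HasSum (fun k : ℤ => ((h k * Real.cos (k * θ) : ℝ) : ℂ)) (s : ℂ) :=
    Complex.hasSum_ofReal.2 hH
  have h7 : HasSum (fun k : ℤ => ((h k * Real.sin (k * θ) : ℝ) : ℂ)) ((0 : ℝ) : ℂ) :=
    Complex.hasSum_ofReal.2 h5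
  have h8 := h6.add (h7.mul_right Complex.I)
  have h9 : (fun k : ℤ => ((h k * Real.cos (k * θ) : ℝ) : ℂ) +
      ((h k * Real.sin (k * θ) : ℝ) : ℂ) * Complex.I) = fun k : ℤ => (h k : ℂ) * ch k θ := by
    funext k
    unfold ch
    rw [Complex.exp_mul_I]
    push_cast
    ring
  rw [h9] at h8
  rw [h8.tsum_eq]
  simp

theorem two_var (h g : ℤ → ℝ) (hh : Summable fun k => |h k|) (hg : Summable fun k => |g k|)
    (he : ∀ k, h (-k) = h k) (ge : ∀ k, g (-k) = g k) (H G : ℝ → ℝ)
    (hH : ∀ θ : ℝ, HasSum (fun k : ℤ => h k * Real.cos (k * θ)) (H θ))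
    (hG : ∀ θ : ℝ, HasSum (fun k : ℤ => g k * Real.cos (k * θ)) (G θ))
    (h0 : ∀ θ φ : ℝ, H (θ - φ) * (G θ * G φ) = 0) (p q : ℤ) :
    ∑' n : ℤ, h n * (g (p - n) * g (q + n)) = 0 := by
  have hh' : Summable fun k : ℤ => ‖(h k : ℂ)‖ := hh.congr fun k => by
    rw [Complex.norm_real, Real.norm_eq_abs]
  have hg' : Summable fun k : ℤ => ‖(g k : ℂ)‖ := hg.congr fun k => by
    rw [Complex.norm_real, Real.norm_eq_abs]
  have hgb : ∀ k, ‖(g k : ℂ)‖ ≤ ∑' k, ‖(g k : ℂ)‖ := fun k =>
    hg'.le_tsum k fun _ _ => norm_nonneg _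
  -- first step
  have step1 : ∀ θ : ℝ, G θ ≠ 0 → ∀ q : ℤ, ∑' n : ℤ, (h n : ℂ) * (g (q + n) : ℂ) * ch n θ = 0 := by
    intro θ hθ q
    have ha : Summable fun k : ℤ => ‖(h (-k) : ℂ) * ch (-k) θ‖ := by
      have h1 := (Equiv.neg ℤ).summable_iff.2 hh'
      refine h1.congr fun k => ?_
      rw [norm_mul, ch_norm, mul_one]
      rfl
    have h1 : ∀ φ : ℝ, ∑' k, ((h (-k) : ℂ) * ch (-k) θ) * ch k φ = (H (θ - φ) : ℂ) := by
      intro φ
      rw [← cos_to_ch hh he (hH (θ - φ)), ← (Equiv.neg ℤ).tsum_eq fun k : ℤ =>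
        (h k : ℂ) * ch k (θ - φ)]
      refine tsum_congr fun k => ?_
      rw [Equiv.neg_apply, ch_sub, neg_neg, mul_assoc]
    have h2 : ∀ φ : ℝ, ∑' k, conv (fun k => (h (-k) : ℂ) * ch (-k) θ) (fun k => (g k : ℂ)) k *
        ch k φ = 0 := by
      intro φ
      rw [← conv_mul ha hg' φ, h1, cos_to_ch hg ge (hG φ)]
      have h3 := h0 θ φ
      have h4 : H (θ - φ) * G φ = 0 := by
        have h5 : G θ * (H (θ - φ) * G φ) = 0 := by
          rw [← h3]
          ring
        exact (mul_eq_zero.1 h5).resolve_left hθ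
      exact_mod_cast h4
    have h3 := uniq (conv_summable ha hg') h2 q
    unfold conv at h3
    rw [← (Equiv.neg ℤ).tsum_eq fun n : ℤ => (h n : ℂ) * (g (q + n) : ℂ) * ch n θ]
    rw [← h3]
    refine tsum_congr fun k => ?_
    rw [Equiv.neg_apply, sub_eq_add_neg]
    ring
  -- second step
  have hb : Summable fun n : ℤ => ‖(h n : ℂ) * (g (q + n) : ℂ)‖ := by
    refine Summable.of_nonneg_of_le (fun _ => norm_nonneg _) (fun n => ?_)
      (hh'.mul_right (∑' k, ‖(g k : ℂ)‖))
    rw [norm_mul]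
    exact mul_le_mul_of_nonneg_left (hgb _) (norm_nonneg _)
  have h2 : ∀ θ : ℝ, ∑' k, conv (fun n => (h n : ℂ) * (g (q + n) : ℂ)) (fun k => (g k : ℂ)) k *
      ch k θ = 0 := by
    intro θ
    rw [← conv_mul hb hg' θ, cos_to_ch hg ge (hG θ)]
    by_cases hθ : G θ = 0
    · rw [hθ]
      simp
    · rw [step1 θ hθ q, zero_mul]
  have h3 := uniq (conv_summable hb hg') h2 p
  unfold conv at h3
  have h4 : ((∑' n : ℤ, h n * (g (p - n) * g (q + n)) : ℝ) : ℂ) = 0 := by
    rw [Complex.ofReal_tsum, ← h3]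
    refine tsum_congr fun n => ?_
    push_cast
    ring
  exact_mod_cast h4

end Pool.Agent.TH367.BM
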