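import Mathlib

/-!
# Difference quotient of an isometry close to the identity (job BM-4 for helper328)
-/

set_option autoImplicit false

namespace Pool.Agent.TH367.BM

variable {E : Type} [NormedAddCommGroup E] [NormedSpace ℝ E]

theorem iter_norm (R : E ≃ₗᵢ[ℝ] E) (x : E) (k : ℕ) : ‖R^[k] x‖ = ‖x‖ := by
  induction k with
  | zero => rfl
  | succ k ih => rw [Function.iterate_succ_apply', R.norm_map, ih]

theorem iter_dist (R : E ≃ₗᵢ[ℝ] E) {ε : ℝ} (hε0 : 0 < ε) (X : E →L[ℝ] E)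
    (hX : ∀ x, R x = x + ε • X x) (hn : ‖X‖ ≤ 1) (x : E) (k : ℕ) :
    ‖R^[k] x - x‖ ≤ k * ε * ‖x‖ := by
  induction k with
  | zero => simp
  | succ k ih =>
    rw [Function.iterate_succ_apply', hX]
    have e1 : R^[k] x + ε • X (R^[k] x) - x = (R^[k] x - x) + ε • X (R^[k] x) := by abel
    rw [e1]
    have h1 : ‖X (R^[k] x)‖ ≤ ‖x‖ := by
      calc ‖X (R^[k] x)‖ ≤ ‖X‖ * ‖R^[k] x‖ := X.le_opNorm _
        _ ≤ 1 * ‖R^[k] x‖ := mul_le_mul_of_nonneg_right hn (norm_nonneg _)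
        _ = ‖x‖ := by rw [one_mul, iter_norm]
    calc ‖(R^[k] x - x) + ε • X (R^[k] x)‖ ≤ ‖R^[k] x - x‖ + ‖ε • X (R^[k] x)‖ :=
          norm_add_le _ _
      _ ≤ k * ε * ‖x‖ + ε * ‖x‖ := by
          rw [norm_smul, Real.norm_of_nonneg hε0.le]
          have := mul_le_mul_of_nonneg_left h1 hε0.le
          linarith
      _ = ((k + 1 : ℕ) : ℝ) * ε * ‖x‖ := by
          push_cast
          ring

theorem iter_quad (R : E ≃ₗᵢ[ℝ] E) {ε : ℝ} (hε0 : 0 < ε) (X : E →L[ℝ] E)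
    (hX : ∀ x, R x = x + ε • X x) (hn : ‖X‖ ≤ 1) (x : E) (k : ℕ) :
    ‖R^[k] x - x - (k * ε) • X x‖ ≤ (k * ε) ^ 2 / 2 * ‖x‖ := by
  induction k with
  | zero => simp
  | succ k ih =>
    rw [Function.iterate_succ_apply', hX]
    have e1 : R^[k] x + ε • X (R^[k] x) - x - (((k + 1 : ℕ) : ℝ) * ε) • X x =
        (R^[k] x - x - (k * ε) • X x) + ε • X (R^[k] x - x) := by
      rw [map_sub, smul_sub]
      push_cast
      rw [add_mul, one_mul, add_smul]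
      abel
    rw [e1]
    have h1 : ‖X (R^[k] x - x)‖ ≤ k * ε * ‖x‖ := by
      calc ‖X (R^[k] x - x)‖ ≤ ‖X‖ * ‖R^[k] x - x‖ := X.le_opNorm _
        _ ≤ 1 * ‖R^[k] x - x‖ := mul_le_mul_of_nonneg_right hn (norm_nonneg _)
        _ ≤ k * ε * ‖x‖ := by
          rw [one_mul]
          exact iter_dist R hε0 X hX hn x k
    calc ‖(R^[k] x - x - (k * ε) • X x) + ε • X (R^[k] x - x)‖ ≤
          ‖R^[k] x - x - (k * ε) • X x‖ + ‖ε • X (R^[k] x - x)‖ := norm_add_le _ _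
      _ ≤ (k * ε) ^ 2 / 2 * ‖x‖ + ε * (k * ε * ‖x‖) := by
          rw [norm_smul, Real.norm_of_nonneg hε0.le]
          have := mul_le_mul_of_nonneg_left h1 hε0.le
          linarith
      _ ≤ (((k + 1 : ℕ) : ℝ) * ε) ^ 2 / 2 * ‖x‖ := by
          push_cast
          have h2 : 0 ≤ ε ^ 2 * ‖x‖ := by positivity
          nlinarith

/-- both bounds for nonnegative parameters -/
theorem near_pos (R : E ≃ₗᵢ[ℝ] E) {ε : ℝ} (hε0 : 0 < ε) (X : E →L[ℝ] E)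
    (hX : ∀ x, R x = x + ε • X x) (hn : ‖X‖ ≤ 1) {t : ℝ} (ht : 0 ≤ t) (x : E) :
    |‖x + t • X x‖ - ‖x‖| ≤ (t ^ 2 / 2 + ε) * ‖x‖ := by
  set k := ⌊t / ε⌋₊ with hk
  have h1 : (k : ℝ) * ε ≤ t := by
    have := Nat.floor_le (div_nonneg ht hε0.le)
    rwa [le_div_iff₀ hε0] at this
  have h2 : t < k * ε + ε := by
    have := Nat.lt_floor_add_one (t / ε)
    rw [div_lt_iff₀ hε0, add_mul, one_mul] at this
    exact this
  have h3 : 0 ≤ (k : ℝ) * ε := by positivity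
  have h4 := iter_quad R hε0 X hX hn x k
  have h5 : ‖X x‖ ≤ ‖x‖ := by
    calc ‖X x‖ ≤ ‖X‖ * ‖x‖ := X.le_opNorm _
      _ ≤ 1 * ‖x‖ := mul_le_mul_of_nonneg_right hn (norm_nonneg _)
      _ = ‖x‖ := one_mul _
  have e1 : x + t • X x - R^[k] x = (t - k * ε) • X x - (R^[k] x - x - (k * ε) • X x) := by
    rw [sub_smul]
    abel
  have h6 : ‖x + t • X x - R^[k] x‖ ≤ (t ^ 2 / 2 + ε) * ‖x‖ := by
    rw [e1]
    calc ‖(t - k * ε) • X x - (R^[k] x - x - (k * ε) • X x)‖ ≤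
          ‖(t - k * ε) • X x‖ + ‖R^[k] x - x - (k * ε) • X x‖ := norm_sub_le _ _
      _ ≤ ε * ‖x‖ + (k * ε) ^ 2 / 2 * ‖x‖ := by
          rw [norm_smul, Real.norm_of_nonneg (by linarith : 0 ≤ t - k * ε)]
          have h7 : (t - k * ε) * ‖X x‖ ≤ ε * ‖x‖ :=
            mul_le_mul (by linarith) h5 (norm_nonneg _) hε0.le
          linarith
      _ ≤ (t ^ 2 / 2 + ε) * ‖x‖ := by
          have h7 : (k * ε) ^ 2 ≤ t ^ 2 := pow_le_pow_left₀ h3 h1 2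
          have h8 := mul_le_mul_of_nonneg_right h7 (norm_nonneg x)
          nlinarith
  calc |‖x + t • X x‖ - ‖x‖| = |‖x + t • X x‖ - ‖R^[k] x‖| := by rw [iter_norm]
    _ ≤ ‖x + t • X x - R^[k] x‖ := abs_norm_sub_norm_le _ _
    _ ≤ _ := h6

theorem near_one (E : Type) [NormedAddCommGroup E] [NormedSpace ℝ E] (R : E ≃ₗᵢ[ℝ] E) (ε : ℝ)
    (hε0 : 0 < ε) (hε : ε ≤ 1 / 4) (X : E →L[ℝ] E) (hX : ∀ x, R x = x + ε • X x) (hn : ‖X‖ ≤ 1)
    (t : ℝ) (ht : |t| ≤ 1 / 4) (x : E) : ‖x + t • X x‖ ≤ (1 + 4 * t ^ 2 + 4 * ε) * ‖x‖ := by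
  have hx0 := norm_nonneg x
  have ht2 : t ^ 2 ≤ 1 / 16 := by
    have := pow_le_pow_left₀ (abs_nonneg t) ht 2
    rw [sq_abs] at this
    norm_num at this ⊢
    exact this
  rcases le_total 0 t with h0 | h0
  · have h1 := (abs_le.1 (near_pos R hε0 X hX hn h0 x)).2
    have h2 : 0 ≤ t ^ 2 * ‖x‖ := by positivity
    have h3 : 0 ≤ ε * ‖x‖ := by positivity
    nlinarith
  · have h1 := (abs_le.1 (near_pos R hε0 X hX hn (by linarith : 0 ≤ -t) (x + t • X x))).1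
    have e1 : x + t • X x + (-t) • X (x + t • X x) = x - (t ^ 2) • X (X x) := by
      rw [map_add, map_smul, smul_add, smul_smul, neg_smul, neg_mul, neg_smul, ← pow_two]
      abel
    rw [e1] at h1
    have h2 : ‖X (X x)‖ ≤ ‖x‖ := by
      have a1 : ∀ y, ‖X y‖ ≤ ‖y‖ := fun y => by
        calc ‖X y‖ ≤ ‖X‖ * ‖y‖ := X.le_opNorm _
          _ ≤ 1 * ‖y‖ := mul_le_mul_of_nonneg_right hn (norm_nonneg _)
          _ = ‖y‖ := one_mul _
      exact (a1 _).trans (a1 _)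
    have h3 : ‖x - (t ^ 2) • X (X x)‖ ≤ (1 + t ^ 2) * ‖x‖ := by
      calc ‖x - (t ^ 2) • X (X x)‖ ≤ ‖x‖ + ‖(t ^ 2) • X (X x)‖ := norm_sub_le _ _
        _ ≤ ‖x‖ + t ^ 2 * ‖x‖ := by
          rw [norm_smul, Real.norm_of_nonneg (sq_nonneg t)]
          have := mul_le_mul_of_nonneg_left h2 (sq_nonneg t)
          linarith
        _ = _ := by ring
    have h4 : (1 - (t ^ 2 / 2 + ε)) * ‖x + t • X x‖ ≤ (1 + t ^ 2) * ‖x‖ := by
      have : (-t) ^ 2 = t ^ 2 := by ring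
      rw [this] at h1
      linarith
    have h5 : (1 + t ^ 2) ≤ (1 - (t ^ 2 / 2 + ε)) * (1 + 4 * t ^ 2 + 4 * ε) := by
      nlinarith [sq_nonneg t, mul_nonneg (sq_nonneg t) hε0.le]
    have h6 : (0 : ℝ) < 1 - (t ^ 2 / 2 + ε) := by linarith
    have h7 : (1 - (t ^ 2 / 2 + ε)) * ‖x + t • X x‖ ≤
        (1 - (t ^ 2 / 2 + ε)) * ((1 + 4 * t ^ 2 + 4 * ε) * ‖x‖) := by
      refine h4.trans ?_
      have := mul_le_mul_of_nonneg_right h5 hx0
      linarith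
    exact le_of_mul_le_mul_left h7 h6

end Pool.Agent.TH367.BM
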