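import Pool.Agent.TH598.GV.Defs2
import Pool.Agent.TH541.J3422
import Pool.Agent.TH598.GV.Coord

set_option autoImplicit false

/-!
Job 4006 (GV-N): the hyperplane block is only nonnegative and the complex sectional curvature is at
least `δ`; induction by the expansion in the slot of `e₀`.
-/

namespace Pool.Agent.TH367.J4006

open Finset MeasureTheory Pool.Agent.TH598.GV
open scoped ComplexConjugate ComplexOrder

/-- the assumed statement `laplace` (job GV-M) -/
def Laplace : Prop := ∀ {k : ℕ} (H : Ix k → Ix k → Ix k → Ix k → ℂ), HS H → ∀ t : ℂ,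
    GG (fun i j i' j' => H i j i' j' + t * U0 i j i' j') = GG H + t * (4 * (k + 1)) *
      ∑ p : Ix k, (if p = e0 then 0 else
        GG (fun a b a' b' : K k => H (cp p a) (cp p b) (cp p a') (cp p b')))

/-- the statement `gen` -/
def Gen : Prop := ∀ {B : Type} [Fintype B] [DecidableEq B]
    (H : B × Bool → B × Bool → B × Bool → B × Bool → ℂ), HS H → ∀ i0 : B × Bool,
    (∀ p : B × Bool → B × Bool → ℂ, (∀ j, p i0 j = 0) → (∀ j, p j i0 = 0) →
      0 ≤ (∑ i, ∑ j, ∑ i', ∑ j', H i j i' j' * (p i j * conj (p i' j'))).re) →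
    (∀ z w : B × Bool → ℂ, 0 ≤ (qf H z w).re) → 0 ≤ (GG H).re

section sums

/-- moving an inner sum outside -/
lemma swap4 {P I : Type} [Fintype P] [Fintype I] (A : P → I → I → I → I → ℂ) :
    ∑ i, ∑ j, ∑ i', ∑ j', ∑ p, A p i j i' j' = ∑ p, ∑ i, ∑ j, ∑ i', ∑ j', A p i j i' j' := by
  have h1 : ∀ i j i', ∑ j', ∑ p, A p i j i' j' = ∑ p, ∑ j', A p i j i' j' :=
    fun _ _ _ => Finset.sum_comm
  have h2 : ∀ i j, ∑ i', ∑ p, ∑ j', A p i j i' j' = ∑ p, ∑ i', ∑ j', A p i j i' j' :=
    fun _ _ => Finset.sum_comm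
  have h3 : ∀ i, ∑ j, ∑ p, ∑ i', ∑ j', A p i j i' j' = ∑ p, ∑ j, ∑ i', ∑ j', A p i j i' j' :=
    fun _ => Finset.sum_comm
  simp only [h1, h2, h3]
  exact Finset.sum_comm

/-- product of two double sums -/
lemma mul4 {I : Type} [Fintype I] (f g : I → I → ℂ) :
    ∑ i, ∑ j, ∑ i', ∑ j', f i j * g i' j' = (∑ i, ∑ j, f i j) * (∑ i', ∑ j', g i' j') := by
  simp only [← Finset.mul_sum, ← Finset.sum_mul]

end sums

section tensors

variable {k : ℕ}

lemma W_alt (p i j : Ix k) : W p j i = - W p i j := by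
  unfold W
  ring

lemma W_conj (p i j : Ix k) : conj (W p i j) = W p i j := by
  unfold W
  simp only [map_sub, map_mul, apply_ite (starRingEnd ℂ), map_one, map_zero]

lemma W_ne (p i j : Ix k) (hi : i ≠ e0) (hj : j ≠ e0) : W p i j = 0 := by
  unfold W
  rw [if_neg hi, if_neg hj]
  ring

lemma U0_HS : HS (U0 (k := k)) := by
  constructor
  · intro i j k' l
    unfold U0
    rw [map_sum]
    refine Finset.sum_congr rfl fun p _ => ?_
    by_cases h : p = e0
    · simp [h]
    · rw [if_neg h, if_neg h, map_mul, W_conj, W_conj]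
      ring
  · intro i j k' l
    unfold U0
    rw [← Finset.sum_neg_distrib]
    refine Finset.sum_congr rfl fun p _ => ?_
    by_cases h : p = e0
    · simp [h]
    · rw [if_neg h, if_neg h, W_alt p i j]
      ring

lemma U0_ne (i j i' j' : Ix k) (hi : i ≠ e0) (hj : j ≠ e0) : U0 i j i' j' = 0 := by
  unfold U0
  refine Finset.sum_eq_zero fun p _ => ?_
  rw [W_ne p i j hi hj]
  simp

lemma sum_W (z : Ix k → Ix k → ℂ) (p : Ix k) :
    ∑ i, ∑ j, W p i j * z i j = z e0 p - z p e0 := by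
  unfold W
  simp only [sub_mul, Finset.sum_sub_distrib]
  congr 1
  · rw [Finset.sum_eq_single e0, Finset.sum_eq_single p]
    · simp
    · intro b _ hb
      simp [hb]
    · simp
    · intro b _ hb
      simp [hb]
    · simp
  · rw [Finset.sum_eq_single p, Finset.sum_eq_single e0]
    · simp
    · intro b _ hb
      simp [hb]
    · simp
    · intro b _ hb
      simp [hb]
    · simp

/-- the form of `U0` on a general array -/
lemma U0_form (f g : Ix k → Ix k → ℂ) :
    ∑ i, ∑ j, ∑ i', ∑ j', U0 i j i' j' * (f i j * g i' j') =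
      ∑ p ∈ univ.erase e0, (f e0 p - f p e0) * (g e0 p - g p e0) := by
  have h1 : ∀ i j i' j', U0 i j i' j' * (f i j * g i' j') =
      ∑ p : Ix k, (if p = e0 then 0 else W p i j * f i j * (W p i' j' * g i' j')) := by
    intro i j i' j'
    unfold U0
    rw [Finset.sum_mul]
    refine Finset.sum_congr rfl fun p _ => ?_
    by_cases h : p = e0
    · simp [h]
    · rw [if_neg h, if_neg h]
      ring
  simp only [h1]
  rw [swap4]
  rw [← Finset.add_sum_erase _ _ (Finset.mem_univ e0)]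
  have h2 : ∑ i : Ix k, ∑ j : Ix k, ∑ i' : Ix k, ∑ j' : Ix k, (if (e0 : Ix k) = e0 then (0 : ℂ)
      else W e0 i j * f i j * (W e0 i' j' * g i' j')) = 0 := by
    simp
  rw [h2, zero_add]
  refine Finset.sum_congr rfl fun p hp => ?_
  have hp0 : p ≠ e0 := Finset.ne_of_mem_erase hp
  simp only [hp0, if_false]
  rw [mul4 (fun i j => W p i j * f i j) (fun i j => W p i j * g i j), sum_W, sum_W]

lemma qf_U0 (z w : Ix k → ℂ) :
    (qf U0 z w).re = ∑ p ∈ univ.erase e0, ‖z e0 * w p - z p * w e0‖ ^ 2 := by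
  have h1 : qf U0 z w = ∑ i, ∑ j, ∑ i', ∑ j', U0 i j i' j' *
      ((fun a b => z a * w b) i j * (fun a b => conj (z a) * conj (w b)) i' j') := by
    unfold qf
    refine Finset.sum_congr rfl fun i _ => Finset.sum_congr rfl fun j _ =>
      Finset.sum_congr rfl fun i' _ => Finset.sum_congr rfl fun j' _ => by ring
  rw [h1, U0_form, Complex.re_sum]
  refine Finset.sum_congr rfl fun p _ => ?_
  have h2 : (z e0 * w p - z p * w e0) * (conj (z e0) * conj (w p) - conj (z p) * conj (w e0)) =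
      ((‖z e0 * w p - z p * w e0‖ ^ 2 : ℝ) : ℂ) := by
    rw [← Complex.normSq_eq_norm_sq, ← Complex.mul_conj]
    simp only [map_sub, map_mul]
  rw [h2, Complex.ofReal_re]

end tensors

section unit

variable {I : Type} [Fintype I] [DecidableEq I]

lemma qf_UU (z w : I → ℂ) :
    2 * (qf UU z w).re = ∑ i, ∑ j, ‖z i * w j - z j * w i‖ ^ 2 := by
  have h1 : ∀ i j, (∑ i', ∑ j', ((if i = i' then (1 : ℂ) else 0) * (if j = j' then 1 else 0) -
      (if i = j' then 1 else 0) * (if j = i' then 1 else 0)) *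
      (z i * w j * conj (z i') * conj (w j'))) =
      z i * w j * conj (z i) * conj (w j) - z i * w j * conj (z j) * conj (w i) := by
    intro i j
    simp only [sub_mul, Finset.sum_sub_distrib]
    congr 1
    · rw [Finset.sum_eq_single i, Finset.sum_eq_single j]
      · simp
      · intro b _ hb
        simp [Ne.symm hb]
      · simp
      · intro b _ hb
        simp [Ne.symm hb]
      · simp
    · rw [Finset.sum_eq_single j, Finset.sum_eq_single i]
      · simp
      · intro b _ hb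
        simp [Ne.symm hb]
      · simp
      · intro b _ hb
        simp [Ne.symm hb]
      · simp
  have h2 : 2 * qf UU z w = ∑ i, ∑ j, (z i * w j - z j * w i) * conj (z i * w j - z j * w i) := by
    unfold qf UU
    simp only [h1]
    have h3 : ∑ i, ∑ j, (z i * w j * conj (z i) * conj (w j) - z i * w j * conj (z j) * conj (w i)) =
        ∑ i, ∑ j, (z j * w i * conj (z j) * conj (w i) - z j * w i * conj (z i) * conj (w j)) :=
      Finset.sum_comm
    rw [two_mul]
    nth_rewrite 2 [h3]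
    rw [← Finset.sum_add_distrib]
    refine Finset.sum_congr rfl fun i _ => ?_
    rw [← Finset.sum_add_distrib]
    refine Finset.sum_congr rfl fun j _ => ?_
    simp only [map_sub, map_mul]
    ring
  have h3 : 2 * (qf UU z w).re = (2 * qf UU z w).re := by
    rw [show (2 : ℂ) = ((2 : ℝ) : ℂ) by norm_num, Complex.re_ofReal_mul]
  rw [h3, h2, Complex.re_sum]
  refine Finset.sum_congr rfl fun i _ => ?_
  rw [Complex.re_sum]
  refine Finset.sum_congr rfl fun j _ => ?_
  rw [Complex.mul_conj, Complex.ofReal_re, Complex.normSq_eq_norm_sq]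

end unit

section main

variable {k : ℕ}

lemma U0_le_UU (z w : Ix k → ℂ) : (qf U0 z w).re ≤ (qf UU z w).re := by
  have h1 := qf_UU z w
  rw [← Finset.add_sum_erase _ _ (Finset.mem_univ (e0 : Ix k))] at h1
  have h2 : ∑ p ∈ univ.erase e0, ‖z e0 * w p - z p * w e0‖ ^ 2 ≤
      ∑ j, ‖z e0 * w j - z j * w e0‖ ^ 2 :=
    Finset.sum_le_sum_of_subset_of_nonneg (Finset.erase_subset _ _) (fun _ _ _ => by positivity)
  have h3 : ∑ p ∈ univ.erase e0, ‖z e0 * w p - z p * w e0‖ ^ 2 ≤
      ∑ i ∈ univ.erase (e0 : Ix k), ∑ j, ‖z i * w j - z j * w i‖ ^ 2 := by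
    refine Finset.sum_le_sum fun p _ => ?_
    refine le_trans (le_of_eq ?_) (Finset.single_le_sum (f := fun j => ‖z p * w j - z j * w p‖ ^ 2)
      (fun _ _ => by positivity) (Finset.mem_univ (e0 : Ix k)))
    show ‖z e0 * w p - z p * w e0‖ ^ 2 = ‖z p * w e0 - z e0 * w p‖ ^ 2
    rw [norm_sub_rev]
  rw [qf_U0]
  linarith

lemma cp_ne (p : Ix k) (hp : p ≠ e0) (a : K k) : cp p a ≠ e0 := by
  unfold cp
  rw [Ne, Equiv.swap_apply_eq_iff]
  have h1 : (e0 : Ix k) ≠ e1 := by
    unfold e0 e1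
    simp
  rw [Equiv.swap_apply_of_ne_of_ne hp.symm h1]
  exact Pool.Agent.TH541.J3422.em_ne a false

lemma cp_inj (p : Ix k) {a b : K k} (h : cp p a = cp p b) : a = b := by
  unfold cp at h
  exact Pool.Agent.TH541.J3422.em_inj ((Equiv.swap p e1).injective h)

/-- extension by zero -/
noncomputable def xt {α β : Type} [Fintype α] [DecidableEq β] (c : α → β) (z : α → ℂ) : β → ℂ :=
  fun i => ∑ a, if i = c a then z a else 0

lemma sum_xt {α β : Type} [Fintype α] [Fintype β] [DecidableEq β] (c : α → β) (z : α → ℂ)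
    (F : β → ℂ) : ∑ i, F i * xt c z i = ∑ a, F (c a) * z a := by
  unfold xt
  simp only [Finset.mul_sum]
  rw [Finset.sum_comm]
  refine Finset.sum_congr rfl fun a _ => ?_
  rw [Finset.sum_eq_single (c a)]
  · rw [if_pos rfl]
  · intro b _ hb
    rw [if_neg hb, mul_zero]
  · simp

lemma xt_conj {α β : Type} [Fintype α] [DecidableEq β] (c : α → β) (z : α → ℂ) (i : β) :
    conj (xt c z i) = xt c (fun a => conj (z a)) i := by
  unfold xt
  rw [map_sum]
  refine Finset.sum_congr rfl fun a _ => ?_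
  rw [apply_ite (starRingEnd ℂ), map_zero]

lemma qf_xt {α β : Type} [Fintype α] [Fintype β] [DecidableEq β] (c : α → β)
    (H : β → β → β → β → ℂ) (z w : α → ℂ) :
    qf H (xt c z) (xt c w) = qf (fun a b a' b' => H (c a) (c b) (c a') (c b')) z w := by
  unfold qf
  have h4 : ∀ i j i', ∑ j', H i j i' j' * (xt c z i * xt c w j * conj (xt c z i') *
      conj (xt c w j')) = ∑ b', (H i j i' (c b') * (xt c z i * xt c w j * conj (xt c z i'))) *
        conj (w b') := by
    intro i j i'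
    rw [← sum_xt c (fun a => conj (w a))
      (fun j' => H i j i' j' * (xt c z i * xt c w j * conj (xt c z i')))]
    refine Finset.sum_congr rfl fun j' _ => ?_
    rw [xt_conj c w]
    ring
  have h3 : ∀ i j, ∑ i', ∑ b', (H i j i' (c b') * (xt c z i * xt c w j * conj (xt c z i'))) *
        conj (w b') = ∑ a', ∑ b', H i j (c a') (c b') * (xt c z i * xt c w j) * conj (w b') *
          conj (z a') := by
    intro i j
    have h := sum_xt c (fun a => conj (z a))
      (fun i' => ∑ b', H i j i' (c b') * (xt c z i * xt c w j) * conj (w b'))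
    simp only [Finset.sum_mul] at h
    rw [← h]
    refine Finset.sum_congr rfl fun i' _ => Finset.sum_congr rfl fun b' _ => ?_
    rw [xt_conj c z]
    ring
  have h2 : ∀ i, ∑ j, ∑ a', ∑ b', H i j (c a') (c b') * (xt c z i * xt c w j) * conj (w b') *
      conj (z a') = ∑ b, ∑ a', ∑ b', H i (c b) (c a') (c b') * xt c z i * conj (w b') *
        conj (z a') * w b := by
    intro i
    have h := sum_xt c w
      (fun j => ∑ a', ∑ b', H i j (c a') (c b') * xt c z i * conj (w b') * conj (z a'))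
    simp only [Finset.sum_mul] at h
    rw [← h]
    refine Finset.sum_congr rfl fun j _ => Finset.sum_congr rfl fun a' _ =>
      Finset.sum_congr rfl fun b' _ => ?_
    ring
  have h1 : ∑ i, ∑ b, ∑ a', ∑ b', H i (c b) (c a') (c b') * xt c z i * conj (w b') *
        conj (z a') * w b = ∑ a, ∑ b, ∑ a', ∑ b', H (c a) (c b) (c a') (c b') * conj (w b') *
        conj (z a') * w b * z a := by
    have h := sum_xt c z
      (fun i => ∑ b, ∑ a', ∑ b', H i (c b) (c a') (c b') * conj (w b') * conj (z a') * w b)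
    simp only [Finset.sum_mul] at h
    rw [← h]
    refine Finset.sum_congr rfl fun i _ => Finset.sum_congr rfl fun b _ =>
      Finset.sum_congr rfl fun a' _ => Finset.sum_congr rfl fun b' _ => ?_
    ring
  simp only [h4, h3, h2]
  rw [h1]
  refine Finset.sum_congr rfl fun i _ => Finset.sum_congr rfl fun b _ =>
    Finset.sum_congr rfl fun a' _ => Finset.sum_congr rfl fun b' _ => ?_
  ring

/-- extension of an array by zero -/
noncomputable def xt2 {α β : Type} [Fintype α] [DecidableEq β] (c : α → β) (p : α → α → ℂ) :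
    β → β → ℂ := fun i j => ∑ a, ∑ b, if i = c a ∧ j = c b then p a b else 0

lemma sum_xt2 {α β : Type} [Fintype α] [Fintype β] [DecidableEq β] (c : α → β) (p : α → α → ℂ)
    (F : β → β → ℂ) : ∑ i, ∑ j, F i j * xt2 c p i j = ∑ a, ∑ b, F (c a) (c b) * p a b := by
  unfold xt2
  simp only [Finset.mul_sum]
  have h1 : ∀ i, ∑ j, ∑ a, ∑ b, F i j * (if i = c a ∧ j = c b then p a b else 0) =
      ∑ a, ∑ b, ∑ j, F i j * (if i = c a ∧ j = c b then p a b else 0) := by
    intro i
    rw [Finset.sum_comm]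
    exact Finset.sum_congr rfl fun a _ => Finset.sum_comm
  simp only [h1]
  rw [Finset.sum_comm]
  refine Finset.sum_congr rfl fun a _ => ?_
  rw [Finset.sum_comm]
  refine Finset.sum_congr rfl fun b _ => ?_
  rw [Finset.sum_eq_single (c a), Finset.sum_eq_single (c b)]
  · rw [if_pos ⟨rfl, rfl⟩]
  · intro j _ hj
    rw [if_neg (fun h => hj h.2), mul_zero]
  · simp
  · intro i _ hi
    refine Finset.sum_eq_zero fun j _ => ?_
    rw [if_neg (fun h => hi h.1), mul_zero]
  · simp

lemma xt2_conj {α β : Type} [Fintype α] [DecidableEq β] (c : α → β) (p : α → α → ℂ) (i j : β) :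
    conj (xt2 c p i j) = xt2 c (fun a b => conj (p a b)) i j := by
  unfold xt2
  rw [map_sum]
  refine Finset.sum_congr rfl fun a _ => ?_
  rw [map_sum]
  refine Finset.sum_congr rfl fun b _ => ?_
  rw [apply_ite (starRingEnd ℂ), map_zero]

lemma form_xt2 {α β : Type} [Fintype α] [Fintype β] [DecidableEq β] (c : α → β)
    (H : β → β → β → β → ℂ) (p : α → α → ℂ) :
    ∑ i, ∑ j, ∑ i', ∑ j', H i j i' j' * (xt2 c p i j * conj (xt2 c p i' j')) =
      ∑ a, ∑ b, ∑ a', ∑ b', H (c a) (c b) (c a') (c b') * (p a b * conj (p a' b')) := by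
  have h1 : ∀ i j, ∑ i', ∑ j', H i j i' j' * (xt2 c p i j * conj (xt2 c p i' j')) =
      (∑ a', ∑ b', H i j (c a') (c b') * conj (p a' b')) * xt2 c p i j := by
    intro i j
    rw [← sum_xt2 c (fun a b => conj (p a b)) (fun i' j' => H i j i' j'), Finset.sum_mul]
    refine Finset.sum_congr rfl fun i' _ => ?_
    rw [Finset.sum_mul]
    refine Finset.sum_congr rfl fun j' _ => ?_
    rw [xt2_conj]
    ring
  simp only [h1]
  rw [sum_xt2 c p (fun i j => ∑ a', ∑ b', H i j (c a') (c b') * conj (p a' b'))]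
  refine Finset.sum_congr rfl fun a _ => Finset.sum_congr rfl fun b _ => ?_
  rw [Finset.sum_mul]
  refine Finset.sum_congr rfl fun a' _ => ?_
  rw [Finset.sum_mul]
  refine Finset.sum_congr rfl fun b' _ => ?_
  ring

lemma UU_inj {α β : Type} [DecidableEq α] [DecidableEq β] (c : α → β)
    (hc : Function.Injective c) : (fun a b a' b' => UU (c a) (c b) (c a') (c b')) =
      (UU : α → α → α → α → ℂ) := by
  funext a b a' b'
  unfold UU
  simp only [hc.eq_iff]

/-- permuting the coordinates of the vectors -/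
lemma qf_perm {I : Type} [Fintype I] (π : Equiv.Perm I) (H : I → I → I → I → ℂ) (z w : I → ℂ) :
    qf (fun i j i' j' => H (π i) (π j) (π i') (π j')) z w = qf H (z ∘ π.symm) (w ∘ π.symm) := by
  unfold qf
  rw [← Equiv.sum_comp π (fun i => ∑ j, ∑ i', ∑ j', H i j i' j' * ((z ∘ π.symm) i *
    (w ∘ π.symm) j * conj ((z ∘ π.symm) i') * conj ((w ∘ π.symm) j')))]
  refine Finset.sum_congr rfl fun i _ => ?_
  rw [← Equiv.sum_comp π (fun j => ∑ i', ∑ j', H (π i) j i' j' * ((z ∘ π.symm) (π i) *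
    (w ∘ π.symm) j * conj ((z ∘ π.symm) i') * conj ((w ∘ π.symm) j')))]
  refine Finset.sum_congr rfl fun j _ => ?_
  rw [← Equiv.sum_comp π (fun i' => ∑ j', H (π i) (π j) i' j' * ((z ∘ π.symm) (π i) *
    (w ∘ π.symm) (π j) * conj ((z ∘ π.symm) i') * conj ((w ∘ π.symm) j')))]
  refine Finset.sum_congr rfl fun i' _ => ?_
  rw [← Equiv.sum_comp π (fun j' => H (π i) (π j) (π i') j' * ((z ∘ π.symm) (π i) *
    (w ∘ π.symm) (π j) * conj ((z ∘ π.symm) (π i')) * conj ((w ∘ π.symm) j')))]
  refine Finset.sum_congr rfl fun j' _ => ?_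
  simp only [Function.comp_apply, Equiv.symm_apply_apply]

/-- the Gauss-Bonnet sum over the empty index set -/
lemma GG_zero (H : Fin 0 × Bool → Fin 0 × Bool → Fin 0 × Bool → Fin 0 × Bool → ℂ) :
    GG H = 1 := by
  unfold GG cs
  have h : ∀ σ : Equiv.Perm (Fin 0 × Bool), σ = 1 := fun σ => Equiv.ext fun x => x.1.elim0
  rw [Fintype.sum_eq_single 1 (fun σ hσ => absurd (h σ) hσ),
    Fintype.sum_eq_single 1 (fun σ hσ => absurd (h σ) hσ)]
  simp

/-- the conclusion for all tensors in dimension `2 m` -/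
def Concl (m : ℕ) : Prop :=
    ∀ H : Fin m × Bool → Fin m × Bool → Fin m × Bool → Fin m × Bool → ℂ, HS H →
    ∀ i0 : Fin m × Bool,
    (∀ p : Fin m × Bool → Fin m × Bool → ℂ, (∀ j, p i0 j = 0) → (∀ j, p j i0 = 0) →
      0 ≤ (∑ i, ∑ j, ∑ i', ∑ j', H i j i' j' * (p i j * conj (p i' j'))).re) →
    ∀ δ : ℝ, 0 ≤ δ → (∀ z w : Fin m × Bool → ℂ, δ * (qf UU z w).re ≤ (qf H z w).re) →
    2 ^ m * ((2 * m).factorial : ℝ) * δ ^ m ≤ (GG H).re

/-- the step, for the index `e₀` -/
lemma step (lap : Laplace) (gen : Gen) (k : ℕ) (ih : Concl k)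
    (H : Ix k → Ix k → Ix k → Ix k → ℂ) (hH : HS H)
    (hB : ∀ p : Ix k → Ix k → ℂ, (∀ j, p e0 j = 0) → (∀ j, p j e0 = 0) →
      0 ≤ (∑ i, ∑ j, ∑ i', ∑ j', H i j i' j' * (p i j * conj (p i' j'))).re)
    (δ : ℝ) (hδ : 0 ≤ δ) (hK : ∀ z w : Ix k → ℂ, δ * (qf UU z w).re ≤ (qf H z w).re) :
    2 ^ (k + 1) * ((2 * (k + 1)).factorial : ℝ) * δ ^ (k + 1) ≤ (GG H).re := by
  obtain ⟨H1, hH1⟩ : ∃ H1 : Ix k → Ix k → Ix k → Ix k → ℂ, ∀ i j i' j', H1 i j i' j' =
    H i j i' j' - (δ : ℂ) * U0 i j i' j' := ⟨_, fun _ _ _ _ => rfl⟩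
  have hHS1 : HS H1 := by
    constructor
    · intro i j i' j'
      rw [hH1, hH1, map_sub, map_mul, Complex.conj_ofReal, hH.herm, U0_HS.herm]
    · intro i j i' j'
      rw [hH1, hH1, hH.alt, U0_HS.alt]
      ring
  have hB1 : ∀ p : Ix k → Ix k → ℂ, (∀ j, p e0 j = 0) → (∀ j, p j e0 = 0) →
      0 ≤ (∑ i, ∑ j, ∑ i', ∑ j', H1 i j i' j' * (p i j * conj (p i' j'))).re := by
    intro p hp1 hp2
    have h1 : ∑ i, ∑ j, ∑ i', ∑ j', H1 i j i' j' * (p i j * conj (p i' j')) =
        ∑ i, ∑ j, ∑ i', ∑ j', H i j i' j' * (p i j * conj (p i' j')) := by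
      refine Finset.sum_congr rfl fun i _ => Finset.sum_congr rfl fun j _ =>
        Finset.sum_congr rfl fun i' _ => Finset.sum_congr rfl fun j' _ => ?_
      rw [hH1]
      by_cases hi : i = e0
      · rw [hi, hp1]
        ring
      · by_cases hj : j = e0
        · rw [hj, hp2]
          ring
        · rw [U0_ne i j i' j' hi hj]
          ring
    rw [h1]
    exact hB p hp1 hp2
  have hK1 : ∀ z w : Ix k → ℂ, 0 ≤ (qf H1 z w).re := by
    intro z w
    have h1 : qf H1 z w = qf H z w - (δ : ℂ) * qf U0 z w := by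
      unfold qf
      simp only [Finset.mul_sum, ← Finset.sum_sub_distrib]
      refine Finset.sum_congr rfl fun i _ => Finset.sum_congr rfl fun j _ =>
        Finset.sum_congr rfl fun i' _ => Finset.sum_congr rfl fun j' _ => ?_
      rw [hH1]
      ring
    rw [h1, Complex.sub_re, Complex.re_ofReal_mul]
    have h2 := hK z w
    have h3 := mul_le_mul_of_nonneg_left (U0_le_UU z w) hδ
    linarith
  have hG1 : 0 ≤ (GG H1).re := gen H1 hHS1 e0 hB1 hK1
  have hlap := lap H1 hHS1 (δ : ℂ)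
  have hback : (fun i j i' j' => H1 i j i' j' + (δ : ℂ) * U0 i j i' j') = H := by
    funext i j i' j'
    rw [hH1]
    ring
  rw [hback] at hlap
  have hterm : ∀ p : Ix k, p ≠ e0 → 2 ^ k * ((2 * k).factorial : ℝ) * δ ^ k ≤
      (GG (fun a b a' b' : K k => H1 (cp p a) (cp p b) (cp p a') (cp p b'))).re := by
    intro p hp
    have h0 : (fun a b a' b' : K k => H1 (cp p a) (cp p b) (cp p a') (cp p b')) =
        fun a b a' b' : K k => H (cp p a) (cp p b) (cp p a') (cp p b') := by
      funext a b a' b'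
      rw [hH1, U0_ne _ _ _ _ (cp_ne p hp a) (cp_ne p hp b)]
      ring
    rw [h0]
    rcases Nat.eq_zero_or_pos k with hk | hk
    · subst hk
      rw [GG_zero]
      simp
    · have hHS2 : HS (fun a b a' b' : K k => H (cp p a) (cp p b) (cp p a') (cp p b')) :=
        ⟨fun _ _ _ _ => hH.herm _ _ _ _, fun _ _ _ _ => hH.alt _ _ _ _⟩
      have ih2 := ih (fun a b a' b' : K k => H (cp p a) (cp p b) (cp p a') (cp p b')) hHS2
        (⟨0, hk⟩, false)
      refine ih2 ?_ δ hδ ?_
      · intro q _ _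
        rw [← form_xt2 (cp p) H q]
        refine hB _ ?_ ?_
        · intro j
          unfold xt2
          refine Finset.sum_eq_zero fun a _ => Finset.sum_eq_zero fun b _ => ?_
          rw [if_neg (fun h => cp_ne p hp a h.1.symm)]
        · intro j
          unfold xt2
          refine Finset.sum_eq_zero fun a _ => Finset.sum_eq_zero fun b _ => ?_
          rw [if_neg (fun h => cp_ne p hp b h.2.symm)]
      · intro z w
        have h1 := hK (xt (cp p) z) (xt (cp p) w)
        rw [qf_xt, qf_xt, UU_inj (cp p) (fun a b h => cp_inj p h)] at h1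
        exact h1
  have hcard : (univ.erase (e0 : Ix k)).card = 2 * k + 1 := by
    rw [Finset.card_erase_of_mem (Finset.mem_univ _), Finset.card_univ, Fintype.card_prod,
      Fintype.card_fin, Fintype.card_bool]
    omega
  have hsum : ((2 * k + 1 : ℕ) : ℝ) * (2 ^ k * ((2 * k).factorial : ℝ) * δ ^ k) ≤
      (∑ p : Ix k, (if p = e0 then 0 else
        GG (fun a b a' b' : K k => H1 (cp p a) (cp p b) (cp p a') (cp p b')))).re := by
    rw [Complex.re_sum, ← Finset.add_sum_erase _ _ (Finset.mem_univ (e0 : Ix k)), if_pos rfl,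
      Complex.zero_re, zero_add, ← hcard, ← nsmul_eq_mul]
    refine Finset.card_nsmul_le_sum _ _ _ fun p hp => ?_
    have hp0 : p ≠ e0 := Finset.ne_of_mem_erase hp
    rw [if_neg hp0]
    exact hterm p hp0
  have hre : (GG H).re = (GG H1).re + δ * (4 * ((k : ℝ) + 1)) *
      (∑ p : Ix k, (if p = e0 then 0 else
        GG (fun a b a' b' : K k => H1 (cp p a) (cp p b) (cp p a') (cp p b')))).re := by
    rw [hlap, Complex.add_re]
    congr 1
    have h1 : (δ : ℂ) * (4 * ((k : ℂ) + 1)) = ((δ * (4 * ((k : ℝ) + 1)) : ℝ) : ℂ) := by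
      push_cast
      ring
    rw [h1, Complex.re_ofReal_mul]
  rw [hre]
  have hfac : ((2 * (k + 1)).factorial : ℝ) =
      (2 * (k : ℝ) + 2) * ((2 * (k : ℝ) + 1) * ((2 * k).factorial : ℝ)) := by
    have : 2 * (k + 1) = (2 * k + 1) + 1 := by ring
    rw [this, Nat.factorial_succ, Nat.factorial_succ]
    push_cast
    ring
  have hpos : 0 ≤ δ * (4 * ((k : ℝ) + 1)) := by positivity
  have h5 := mul_le_mul_of_nonneg_left hsum hpos
  have h6 : 2 ^ (k + 1) * ((2 * (k + 1)).factorial : ℝ) * δ ^ (k + 1) =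
      δ * (4 * ((k : ℝ) + 1)) * (((2 * k + 1 : ℕ) : ℝ) *
        (2 ^ k * ((2 * k).factorial : ℝ) * δ ^ k)) := by
    rw [hfac]
    push_cast
    ring
  rw [h6]
  linarith

lemma concl (lap : Laplace) (gen : Gen) (m : ℕ) : Concl m := by
  induction m with
  | zero =>
    intro H _ i0
    exact i0.1.elim0
  | succ k ih =>
    intro H hH i0 hB δ hδ hK
    obtain ⟨π, hπ⟩ : ∃ π : Equiv.Perm (Ix k), π = Equiv.swap i0 e0 := ⟨_, rfl⟩
    have hπ0 : π e0 = i0 := by
      rw [hπ]
      exact Equiv.swap_apply_right _ _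
    have hGG : GG (fun i j i' j' : Ix k => H (π i) (π j) (π i') (π j')) = GG H :=
      Pool.Agent.TH541.J3422.GG_perm π H
    rw [← hGG]
    have hHS : HS (fun i j i' j' : Ix k => H (π i) (π j) (π i') (π j')) :=
      ⟨fun _ _ _ _ => hH.herm _ _ _ _, fun _ _ _ _ => hH.alt _ _ _ _⟩
    refine step lap gen k ih (fun i j i' j' : Ix k => H (π i) (π j) (π i') (π j')) hHS
      ?_ δ hδ ?_
    · intro p hp1 hp2
      have h := hB (fun i j => p (π.symm i) (π.symm j))
        (fun j => by
          show p (π.symm i0) (π.symm j) = 0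
          rw [← hπ0, Equiv.symm_apply_apply]
          exact hp1 _)
        (fun j => by
          show p (π.symm j) (π.symm i0) = 0
          rw [← hπ0, Equiv.symm_apply_apply]
          exact hp2 _)
      have hsum : ∀ Φ : Ix k → Ix k → Ix k → Ix k → ℂ,
          ∑ i, ∑ j, ∑ i', ∑ j', Φ (π i) (π j) (π i') (π j') =
            ∑ i, ∑ j, ∑ i', ∑ j', Φ i j i' j' := by
        intro Φ
        rw [← Equiv.sum_comp π (fun i => ∑ j, ∑ i', ∑ j', Φ i j i' j')]
        refine Finset.sum_congr rfl fun i _ => ?_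
        rw [← Equiv.sum_comp π (fun j => ∑ i', ∑ j', Φ (π i) j i' j')]
        refine Finset.sum_congr rfl fun j _ => ?_
        rw [← Equiv.sum_comp π (fun i' => ∑ j', Φ (π i) (π j) i' j')]
        refine Finset.sum_congr rfl fun i' _ => ?_
        rw [← Equiv.sum_comp π (fun j' => Φ (π i) (π j) (π i') j')]
      rw [← hsum (fun i j i' j' => H i j i' j' * (p (π.symm i) (π.symm j) *
        conj (p (π.symm i') (π.symm j'))))] at h
      simp only [Equiv.symm_apply_apply] at h
      exact h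
    · intro z w
      have h := hK (z ∘ π.symm) (w ∘ π.symm)
      rw [← qf_perm π H z w, ← qf_perm π UU z w, UU_inj π π.injective] at h
      exact h

end main

/-- **Strong form** from the two statements. -/
theorem strong_of (lap : Laplace) (gen : Gen) {m : ℕ}
    (H : Fin m × Bool → Fin m × Bool → Fin m × Bool → Fin m × Bool → ℂ) (hH : HS H)
    (i0 : Fin m × Bool)
    (hB : ∀ p : Fin m × Bool → Fin m × Bool → ℂ, (∀ j, p i0 j = 0) → (∀ j, p j i0 = 0) →
      0 ≤ (∑ i, ∑ j, ∑ i', ∑ j', H i j i' j' * (p i j * conj (p i' j'))).re)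
    (δ : ℝ) (hδ : 0 ≤ δ) (hK : ∀ z w : Fin m × Bool → ℂ, δ * (qf UU z w).re ≤ (qf H z w).re) :
    2 ^ m * ((2 * m).factorial : ℝ) * δ ^ m ≤ (GG H).re :=
  concl lap gen m H hH i0 hB δ hδ hK

/-- **Strong form**: the hyperplane block is only nonnegative. -/
theorem strong (lap : Laplace) {m : ℕ}
    (H : Fin m × Bool → Fin m × Bool → Fin m × Bool → Fin m × Bool → ℂ) (hH : HS H)
    (i0 : Fin m × Bool)
    (hB : ∀ p : Fin m × Bool → Fin m × Bool → ℂ, (∀ j, p i0 j = 0) → (∀ j, p j i0 = 0) →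
      0 ≤ (∑ i, ∑ j, ∑ i', ∑ j', H i j i' j' * (p i j * conj (p i' j'))).re)
    (δ : ℝ) (hδ : 0 ≤ δ) (hK : ∀ z w : Fin m × Bool → ℂ, δ * (qf UU z w).re ≤ (qf H z w).re) :
    2 ^ m * ((2 * m).factorial : ℝ) * δ ^ m ≤ (GG H).re :=
  strong_of lap (fun H hH i0 hB hK => Pool.Agent.TH598.GV.gen H hH i0 hB hK) H hH i0 hB δ hδ hK

end Pool.Agent.TH367.J4006
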