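import Pool.Agent.TH176.Nag.Main

/-! Products of Laurent polynomials with multiplicities at torus points, and reduction of unequal
multiplicities to equal ones by cyclic shifts. -/

open Finset Pool.Agent.TH176.Nag

namespace Pool.Agent.TH367.NagProd

theorem pr_add_left {K : Type*} [Field K] (f g : Lau K) (x y : K) (P : K × K → K) :
    pr (f + g).coeff x y P = pr f.coeff x y P + pr g.coeff x y P := by
  unfold pr
  rw [AddMonoidAlgebra.coeff_add, Finsupp.sum_add_index' (by simp) (by intro a b c; ring)]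

theorem pr_zero_left {K : Type*} [Field K] (x y : K) (P : K × K → K) :
    pr (0 : (ℤ × ℤ) →₀ K) x y P = 0 := by
  unfold pr
  rw [Finsupp.sum_zero_index]

theorem pr_single {K : Type*} [Field K] (x y : K) (P : K × K → K) (m : ℤ × ℤ) (r : K) :
    pr (AddMonoidAlgebra.single m r : Lau K).coeff x y P =
      r * P ((m.1 : K), (m.2 : K)) * (x ^ m.1 * y ^ m.2) := by
  unfold pr
  rw [AddMonoidAlgebra.coeff_single, Finsupp.sum_single_index (by simp)]

/-- the pairing of a product with a monomial, as a sum of products of pairings -/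
theorem pr_mul {K : Type*} [Field K] (f g : Lau K) {x y : K} (hx : x ≠ 0) (hy : y ≠ 0) (c d : ℕ) :
    pr (f * g).coeff x y (fun u => u.1 ^ c * u.2 ^ d) =
      ∑ i ∈ range (c + 1), ∑ j ∈ range (d + 1), ((c.choose i : K) * (d.choose j : K)) *
        (pr f.coeff x y (fun u => u.1 ^ i * u.2 ^ j) *
          pr g.coeff x y (fun u => u.1 ^ (c - i) * u.2 ^ (d - j))) := by
  induction f using AddMonoidAlgebra.induction_linear with
  | zero => simp [pr_zero_left]
  | add f1 f2 h1 h2 =>
    rw [add_mul, pr_add_left, h1, h2, ← sum_add_distrib]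
    apply sum_congr rfl
    intro i _
    rw [← sum_add_distrib]
    apply sum_congr rfl
    intro j _
    rw [pr_add_left]; ring
  | single m r =>
    induction g using AddMonoidAlgebra.induction_linear with
    | zero => simp [pr_zero_left]
    | add g1 g2 h1 h2 =>
      rw [mul_add, pr_add_left, h1, h2, ← sum_add_distrib]
      apply sum_congr rfl
      intro i _
      rw [← sum_add_distrib]
      apply sum_congr rfl
      intro j _
      rw [pr_add_left]; ring
    | single n s =>
      rw [AddMonoidAlgebra.single_mul_single, pr_single]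
      simp only [pr_single, Prod.fst_add, Prod.snd_add]
      push_cast
      rw [add_pow, add_pow, zpow_add₀ hx, zpow_add₀ hy, sum_mul_sum, mul_sum, sum_mul]
      apply sum_congr rfl
      intro i _
      rw [mul_sum, sum_mul]
      apply sum_congr rfl
      intro j _
      ring

theorem LM_mul {K : Type*} [Field K] {f g : Lau K} {x y : K} (hx : x ≠ 0) (hy : y ≠ 0)
    {a b : ℕ} (hf : LM f.coeff x y a) (hg : LM g.coeff x y b) : LM (f * g).coeff x y (a + b) := by
  apply LM_of_mono
  intro c d hcd
  rw [pr_mul f g hx hy]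
  apply sum_eq_zero
  intro i hi
  apply sum_eq_zero
  intro j hj
  rw [mem_range] at hi hj
  by_cases h : i + j < a
  · rw [hf _ (mem_PF_mono h)]; ring
  · rw [hg _ (mem_PF_mono (show (c - i) + (d - j) < b by omega))]; ring

theorem LM_one {K : Type*} [Field K] {x y : K} : LM (1 : Lau K).coeff x y 0 := by
  apply LM_of_mono
  intro a b h
  omega

theorem LM_prod {K : Type*} [Field K] {ι : Type*} (s : Finset ι) (f : ι → Lau K) {x y : K}
    (hx : x ≠ 0) (hy : y ≠ 0) (a : ι → ℕ) (hf : ∀ i ∈ s, LM (f i).coeff x y (a i)) :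
    LM (∏ i ∈ s, f i).coeff x y (∑ i ∈ s, a i) := by
  classical
  induction s using Finset.induction_on with
  | empty => simpa using LM_one
  | insert i s his ih =>
    rw [prod_insert his, sum_insert his]
    exact LM_mul hx hy (hf i (mem_insert_self i s))
      (ih fun j hj => hf j (mem_insert_of_mem hj))

/-- the triangle of size `e` -/
def Tri (e : ℕ) : Set (ℤ × ℤ) := {m : ℤ × ℤ | 0 ≤ m.1 ∧ 0 ≤ m.2 ∧ m.1 + m.2 ≤ (e : ℤ)}

theorem Tri_mul {K : Type*} [Field K] {f g : Lau K} {a b : ℕ}
    (hf : (↑f.coeff.support : Set (ℤ × ℤ)) ⊆ Tri a) (hg : (↑g.coeff.support : Set (ℤ × ℤ)) ⊆ Tri b) :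
    (↑(f * g).coeff.support : Set (ℤ × ℤ)) ⊆ Tri (a + b) := by
  classical
  intro m hm
  have h1 := AddMonoidAlgebra.support_coeff_mul_subset _ _ hm
  rw [Finset.mem_add] at h1
  obtain ⟨p, hp, q, hq, rfl⟩ := h1
  obtain ⟨h1, h2, h3⟩ := hf hp
  obtain ⟨h4, h5, h6⟩ := hg hq
  refine ⟨?_, ?_, ?_⟩
  · simp only [Prod.fst_add]; omega
  · simp only [Prod.snd_add]; omega
  · simp only [Prod.fst_add, Prod.snd_add]; push_cast; omega

theorem Tri_prod {K : Type*} [Field K] {ι : Type*} (s : Finset ι) (f : ι → Lau K) (e : ℕ)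
    (hf : ∀ i ∈ s, (↑(f i).coeff.support : Set (ℤ × ℤ)) ⊆ Tri e) :
    (↑(∏ i ∈ s, f i).coeff.support : Set (ℤ × ℤ)) ⊆ Tri (s.card * e) := by
  classical
  induction s using Finset.induction_on with
  | empty =>
    intro m hm
    simp only [prod_empty, card_empty, zero_mul] at hm ⊢
    have : m = 0 := by
      by_contra h
      have h2 : (1 : Lau K).coeff m = 0 := by
        rw [AddMonoidAlgebra.one_def, AddMonoidAlgebra.coeff_single, Finsupp.single_apply,
          if_neg (Ne.symm h)]
      exact (Finsupp.mem_support_iff.1 hm) h2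
    subst this
    simp [Tri]
  | insert i s his ih =>
    rw [prod_insert his, card_insert_of_notMem his]
    have := Tri_mul (hf i (mem_insert_self i s)) (ih fun j hj => hf j (mem_insert_of_mem hj))
    have e1 : (s.card + 1) * e = e + s.card * e := by ring
    rw [e1]; exact this

theorem Emp_symm {n : ℕ} {w : Fin n → ℕ} {e : ℕ}
    (h : Emp (fun _ : Fin n => ∑ i, w i)
      {m : ℤ × ℤ | 0 ≤ m.1 ∧ 0 ≤ m.2 ∧ m.1 + m.2 ≤ ((n * e : ℕ) : ℤ)}) :
    Emp w {m : ℤ × ℤ | 0 ≤ m.1 ∧ 0 ≤ m.2 ∧ m.1 + m.2 ≤ (e : ℤ)} := by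
  obtain ⟨K, _, _, x, y, hx, hy, hf⟩ := h
  by_contra hne
  rcases Nat.eq_zero_or_pos n with hn | hn
  · subst hn
    have h1 := hf (Finsupp.single (0, 0) 1) (by
      intro m hm
      have := Finsupp.support_single_subset hm
      rw [Finset.mem_singleton] at this
      subst this
      simp) (fun i => i.elim0)
    have h2 : (1 : K) = 0 := by
      have := DFunLike.congr_fun h1 (0, 0)
      simp at this
    exact one_ne_zero h2
  · have : NeZero n := ⟨by omega⟩
    have hk : ∀ k : Fin n, ∃ f : (ℤ × ℤ) →₀ K, (↑f.support : Set (ℤ × ℤ)) ⊆ Tri e ∧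
        (∀ i : Fin n, LM f (x (i - k)) (y (i - k)) (w i)) ∧ f ≠ 0 := by
      intro k
      by_contra hk
      apply hne
      refine ⟨K, _, inferInstance, fun i => x (i - k), fun i => y (i - k), fun i => hx _,
        fun i => hy _, fun f h1 h2 => ?_⟩
      by_contra h3
      exact hk ⟨f, h1, h2, h3⟩
    choose f hfS hfL hf0 using hk
    let F : Fin n → Lau K := fun k => AddMonoidAlgebra.ofCoeff (f k)
    have hF0 : ∀ k, F k ≠ 0 := by
      intro k h0
      apply hf0 k
      have := congrArg AddMonoidAlgebra.coeff h0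
      simpa [F] using this
    have hprod : (∏ k, F k) ≠ 0 := Finset.prod_ne_zero_iff.2 fun k _ => hF0 k
    apply hprod
    rw [← AddMonoidAlgebra.coeff_eq_zero]
    apply hf
    · have := Tri_prod univ F e (fun k _ => hfS k)
      rw [card_univ, Fintype.card_fin] at this
      exact this
    · intro j
      have h1 := LM_prod univ F (hx j) (hy j) (fun k => w (j + k)) (fun k _ => by
        have := hfL k (j + k)
        rw [add_sub_cancel_right] at this
        exact this)
      have h2 : ∑ k, w (j + k) = ∑ i, w i := Equiv.sum_comp (Equiv.addLeft j) w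
      rw [h2] at h1
      exact h1

end Pool.Agent.TH367.NagProd
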