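import Mathlib

/-!
Local flows towards a point, and the clopen continuation argument.
-/

namespace Pool.Agent.TH367.Star

open Metric Set

variable {V : Type*} [NormedAddCommGroup V] [NormedSpace ℝ V]

/-- The point at parameter `t` on the way from `z` to `y`. -/
def pt (z y : V) (t : ℝ) : V := (1 - t) • z + t • y

/-- Local convexity of `E` at `x`. -/
def LC (E : Set V) (x : V) : Prop := ∃ r : ℝ, 0 < r ∧ Convex ℝ (ball x r ∩ E)

/-- Near `q` all points of `E` can move a fixed proportion of the way towards `y` inside `E`. -/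
def Flow (E : Set V) (y q : V) : Prop :=
  ∃ ρ : ℝ, 0 < ρ ∧ ∃ s : ℝ, 0 < s ∧ s < 1 ∧ ∀ z ∈ ball q ρ ∩ E, ∀ t ∈ Icc (0 : ℝ) s, pt z y t ∈ E

/-- `z` sees `y` in `E`. -/
def Sees (E : Set V) (y z : V) : Prop := ∀ t ∈ Icc (0 : ℝ) 1, pt z y t ∈ E

@[simp] lemma pt_zero (z y : V) : pt z y 0 = z := by simp [pt]

@[simp] lemma pt_one (z y : V) : pt z y 1 = y := by simp [pt]

lemma pt_pt (z y : V) (s t : ℝ) : pt (pt z y s) y t = pt z y (s + (1 - s) * t) := by
  unfold pt; module

lemma pt_sub_pt (z z' y : V) (t : ℝ) : pt z y t - pt z' y t = (1 - t) • (z - z') := by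
  unfold pt; module

lemma pt_sub (z y : V) (t : ℝ) : pt z y t - z = t • (y - z) := by
  unfold pt; module

lemma pt_sub' (z y : V) (t : ℝ) : pt z y t - y = (1 - t) • (z - y) := by
  unfold pt; module

lemma continuous_pt (z y : V) : Continuous (pt z y) := by
  unfold pt; fun_prop

lemma dist_pt_pt_le (z z' y : V) {t : ℝ} (h0 : 0 ≤ t) (h1 : t ≤ 1) :
    dist (pt z y t) (pt z' y t) ≤ dist z z' := by
  rw [dist_eq_norm, dist_eq_norm, pt_sub_pt, norm_smul, Real.norm_eq_abs,
    abs_of_nonneg (by linarith : (0 : ℝ) ≤ 1 - t)]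
  exact mul_le_of_le_one_left (norm_nonneg _) (by linarith)

lemma seg_iff_sees (E : Set V) (z y : V) : segment ℝ z y ⊆ E ↔ Sees E y z := by
  rw [segment_eq_image]
  constructor
  · intro h t ht
    exact h ⟨t, ht, rfl⟩
  · rintro h _ ⟨t, ht, rfl⟩
    exact h t ht

/-- Composition: if the first part of the way from `z` to `y` lies in `E` and the point reached
sees `y`, then `z` sees `y`. -/
lemma sees_of {E : Set V} {z y : V} {s : ℝ} (h1 : s < 1)
    (hflow : ∀ t ∈ Icc (0 : ℝ) s, pt z y t ∈ E) (hs : Sees E y (pt z y s)) : Sees E y z := by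
  intro t ht
  rcases le_total t s with hts | hst
  · exact hflow t ⟨ht.1, hts⟩
  · have h1s : 0 < 1 - s := by linarith
    have := hs ((t - s) / (1 - s)) ⟨div_nonneg (by linarith) h1s.le,
      (div_le_one h1s).2 (by linarith [ht.2])⟩
    rw [pt_pt] at this
    have h2 : s + (1 - s) * ((t - s) / (1 - s)) = t := by
      field_simp; ring
    rwa [h2] at this

/-- The points towards which `E` flows at `q` form a convex set. -/
lemma convex_flow (E : Set V) (q : V) : Convex ℝ {y | Flow E y q} := by
  rintro a ⟨ρa, hρa, sa, hsa, hsa1, ha⟩ b ⟨ρb, hρb, sb, hsb, hsb1, hb⟩ α β hα hβ hαβ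
  set ρ := min ρa ρb / 2 with hρ
  have hρ0 : 0 < ρ := by positivity
  have hρa' : ρ < ρa := by
    have := min_le_left ρa ρb
    have : 0 < min ρa ρb := lt_min hρa hρb
    linarith
  have hρb' : ρ ≤ ρb / 2 := by
    have := min_le_right ρa ρb
    linarith
  set M := ‖a - q‖ + ρ with hM
  have hM0 : 0 < M := by positivity
  set s := min (min (sa / 2) sb) (min (1 / 2) (ρb / (8 * M))) with hs
  have hs0 : 0 < s := by positivity
  have hs1 : s ≤ sa / 2 := (min_le_left _ _).trans (min_le_left _ _)
  have hs2 : s ≤ sb := (min_le_left _ _).trans (min_le_right _ _)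
  have hs3 : s ≤ 1 / 2 := (min_le_right _ _).trans (min_le_left _ _)
  have hs4 : s ≤ ρb / (8 * M) := (min_le_right _ _).trans (min_le_right _ _)
  refine ⟨ρ, hρ0, s, hs0, by linarith, ?_⟩
  rintro z ⟨hzq, hzE⟩ t ⟨ht0, hts⟩
  have hβ1 : β ≤ 1 := by linarith
  have hα1 : α ≤ 1 := by linarith
  have htβ : t * β ≤ t := mul_le_of_le_one_right ht0 hβ1
  have htβ0 : 0 ≤ t * β := by positivity
  have htα0 : 0 ≤ t * α := by positivity
  have htα : t * α ≤ t := mul_le_of_le_one_right ht0 hα1
  have hd : (1 : ℝ) / 2 ≤ 1 - t * β := by linarith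
  have hd0 : (0 : ℝ) < 1 - t * β := by linarith
  set t1 := t * α / (1 - t * β) with ht1
  have ht10 : 0 ≤ t1 := by positivity
  have ht12 : t1 ≤ 2 * t := by
    rw [ht1, div_le_iff₀ hd0]
    nlinarith
  have hz1 : pt z a t1 ∈ E := ha z ⟨ball_subset_ball hρa'.le hzq, hzE⟩ t1 ⟨ht10, by linarith⟩
  have hz1q : pt z a t1 ∈ ball q ρb := by
    rw [mem_ball, dist_eq_norm]
    have h1 : pt z a t1 - q = (1 - t1) • (z - q) + t1 • (a - q) := by
      unfold pt; module
    rw [mem_ball, dist_eq_norm] at hzq
    have h2 : ‖pt z a t1 - q‖ ≤ ‖z - q‖ + t1 * ‖a - q‖ := by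
      rw [h1]
      refine (norm_add_le _ _).trans ?_
      rw [norm_smul, norm_smul, Real.norm_eq_abs, Real.norm_eq_abs, abs_of_nonneg ht10,
        abs_of_nonneg (by linarith : (0 : ℝ) ≤ 1 - t1)]
      have : (1 - t1) * ‖z - q‖ ≤ ‖z - q‖ := mul_le_of_le_one_left (norm_nonneg _) (by linarith)
      linarith
    have h3 : t1 * ‖a - q‖ ≤ 2 * s * M := by
      apply mul_le_mul (by linarith) (by rw [hM]; linarith) (norm_nonneg _) (by positivity)
    have h4 : 2 * s * M ≤ ρb / 4 := by
      have : s * M ≤ ρb / 8 := by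
        calc s * M ≤ ρb / (8 * M) * M := by gcongr
          _ = ρb / 8 := by field_simp
      linarith
    linarith
  have hfin := hb (pt z a t1) ⟨hz1q, hz1⟩ (t * β) ⟨htβ0, by linarith⟩
  have heq : pt (pt z a t1) b (t * β) = pt z (α • a + β • b) t := by
    unfold pt
    have e1 : (1 - t * β) * t1 = t * α := by
      rw [ht1]; field_simp
    have e2 : (1 - t * β) * (1 - t1) = 1 - t := by
      have : (1 - t * β) * (1 - t1) = (1 - t * β) - (1 - t * β) * t1 := by ring
      rw [this, e1]
      have : α = 1 - β := by linarith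
      rw [this]; ring
    calc (1 - t * β) • ((1 - t1) • z + t1 • a) + (t * β) • b
        = ((1 - t * β) * (1 - t1)) • z + ((1 - t * β) * t1) • a + (t * β) • b := by module
      _ = (1 - t) • z + (t * α) • a + (t * β) • b := by rw [e1, e2]
      _ = (1 - t) • z + t • (α • a + β • b) := by module
  rwa [heq] at hfin

/-- A point seen from all nearby points is flowed to. -/
lemma flow_of_sees {E : Set V} {y q : V} {ε : ℝ} (hε : 0 < ε)
    (h : ∀ z ∈ ball q ε ∩ E, Sees E y z) : Flow E y q :=
  ⟨ε, hε, 1 / 2, by norm_num, by norm_num, fun z hz t ht =>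
    h z hz t ⟨ht.1, ht.2.trans (by norm_num)⟩⟩

lemma sees_self_flow {E : Set V} (hE : IsClosed E) {y z : V} {ρ s : ℝ} (hs : 0 < s) (hs1 : s < 1)
    (hf : ∀ z ∈ ball y ρ ∩ E, ∀ t ∈ Icc (0 : ℝ) s, pt z y t ∈ E) (hz : z ∈ ball y ρ ∩ E) :
    Sees E y z := by
  have hcl : IsClosed ({t | pt z y t ∈ E} ∩ Icc (0 : ℝ) 1) :=
    (hE.preimage (continuous_pt z y)).inter isClosed_Icc
  have := IsClosed.Icc_subset_of_forall_exists_gt hcl (by simpa using hz.2) ?_
  · exact fun t ht => this ht
  · rintro x ⟨hx, hx0, hx1⟩ b hb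
    have hxb : pt z y x ∈ ball y ρ := by
      rw [mem_ball, dist_eq_norm, pt_sub', norm_smul, Real.norm_eq_abs,
        abs_of_nonneg (by linarith : (0 : ℝ) ≤ 1 - x), ← dist_eq_norm]
      have h1 : (1 - x) * dist z y ≤ dist z y := mul_le_of_le_one_left dist_nonneg (by linarith)
      have h2 : dist z y < ρ := hz.1
      linarith
    have h1x : 0 < 1 - x := by linarith
    have hbx : 0 < b - x := by linarith [mem_Ioi.1 hb]
    refine ⟨x + (1 - x) * min s ((b - x)), ?_, ?_, ?_⟩
    · have := hf _ ⟨hxb, hx⟩ (min s (b - x)) ⟨by positivity, min_le_left _ _⟩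
      rwa [pt_pt] at this
    · have : 0 < min s (b - x) := lt_min hs hbx
      have : 0 < (1 - x) * min s (b - x) := by positivity
      linarith
    · have h3 : min s (b - x) ≤ b - x := min_le_right _ _
      have h4 : 0 ≤ min s (b - x) := by positivity
      nlinarith

/-- Key lemma: seeing `y` is an open condition in `E`. -/
lemma see_open {E : Set V} (hE : IsClosed E) {y : V} (hy : y ∈ E)
    (hyp : ∀ q ∈ E, LC E q ∨ Flow E y q) {a : V} (ha : Sees E y a) :
    ∃ ρ > 0, ∀ z ∈ ball a ρ ∩ E, Sees E y z := by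
  classical
  set q : ℝ → V := fun t => pt y a t with hq
  have hqc : Continuous q := continuous_pt y a
  set Good : ℝ → Prop := fun t => ∃ ρ > 0, ∀ z ∈ ball (q t) ρ ∩ E, Sees E y z with hGood
  suffices h : ∀ t ∈ Icc (0 : ℝ) 1, Good t by
    have := h 1 (by simp)
    simpa [hGood, hq] using this
  have hqE : ∀ t ∈ Icc (0 : ℝ) 1, q t ∈ E := by
    intro t ht
    have := ha (1 - t) ⟨by linarith [ht.2], by linarith [ht.1]⟩
    have e : pt a y (1 - t) = q t := by simp only [hq]; unfold pt; module
    rwa [e] at this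
  have hopen : IsOpen {t | Good t} := by
    rw [Metric.isOpen_iff]
    rintro t ⟨ρ, hρ, hz⟩
    obtain ⟨δ, hδ, hδ'⟩ := Metric.continuous_iff.1 hqc t (ρ / 2) (by positivity)
    refine ⟨δ, hδ, fun t' ht' => ⟨ρ / 2, by positivity, fun z hz' => hz z ⟨?_, hz'.2⟩⟩⟩
    have h1 := hδ' t' ht'
    have h2 : dist z (q t') < ρ / 2 := hz'.1
    rw [mem_ball]
    calc dist z (q t) ≤ dist z (q t') + dist (q t') (q t) := dist_triangle _ _ _
      _ < ρ := by linarith
  have hgood0 : Good 0 := by
    have hq0 : q 0 = y := by simp [hq]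
    rcases hyp y hy with ⟨r, hr, hc⟩ | ⟨ρ, hρ, s, hs, hs1, hf⟩
    · refine ⟨r, hr, fun z hz => ?_⟩
      rw [hq0] at hz
      rw [← seg_iff_sees]
      exact (hc.segment_subset hz ⟨mem_ball_self hr, hy⟩).trans inter_subset_right
    · refine ⟨ρ, hρ, fun z hz => ?_⟩
      rw [hq0] at hz
      exact sees_self_flow hE hs hs1 hf hz
  by_contra hcon
  push Not at hcon
  obtain ⟨tb, htb, htbG⟩ := hcon
  have hBc : IsCompact ({t | ¬ Good t} ∩ Icc (0 : ℝ) 1) :=
    isCompact_Icc.inter_left hopen.isClosed_compl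
  obtain ⟨t0, ⟨ht0G, ht0⟩, hleast⟩ := hBc.exists_isLeast ⟨tb, htbG, htb⟩
  have ht0pos : 0 < t0 := by
    rcases ht0.1.lt_or_eq with h | h
    · exact h
    · exact absurd (h ▸ hgood0) ht0G
  have hlt : ∀ t, 0 ≤ t → t < t0 → Good t := by
    intro t ht0' htt
    by_contra hg
    have := hleast ⟨hg, ht0', by linarith [ht0.2]⟩
    linarith
  apply ht0G
  -- the identity pt (q t0) y s = q ((1 - s) * t0)
  have hqpt : ∀ s, pt (q t0) y s = q ((1 - s) * t0) := by
    intro s; simp only [hq]; unfold pt; module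
  have hq0E : q t0 ∈ E := hqE t0 ht0
  rcases hyp (q t0) hq0E with ⟨r, hr, hc⟩ | ⟨ρ, hρ, s, hs, hs1, hf⟩
  · -- locally convex point
    -- choose `s1` small with `q ((1 - s1) t0)` in the ball
    have hcont : ContinuousAt (fun s : ℝ => q ((1 - s) * t0)) 0 := by fun_prop
    have h00 : q ((1 - 0) * t0) = q t0 := by simp
    obtain ⟨δ, hδ, hδ'⟩ := Metric.continuousAt_iff.1 hcont (r / 2) (by positivity)
    set s1 := min (δ / 2) (1 / 2) with hs1def
    have hs10 : 0 < s1 := by positivity
    have hs11 : s1 ≤ 1 / 2 := min_le_right _ _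
    have hs12 : s1 < δ := by
      have := min_le_left (δ / 2) (1 / 2 : ℝ)
      linarith
    set q1 := q ((1 - s1) * t0) with hq1
    have hq1r : dist q1 (q t0) < r / 2 := by
      have := hδ' (x := s1) (by rw [Real.dist_eq, sub_zero, abs_of_pos hs10]; exact hs12)
      simpa [h00] using this
    have hq1' : pt (q t0) y s1 = q1 := hqpt s1
    have ht1 : Good ((1 - s1) * t0) := hlt _ (by nlinarith) (by nlinarith)
    obtain ⟨ρ1, hρ1, hG1⟩ := ht1
    have hq1E : q1 ∈ E := hqE _ ⟨by nlinarith [ht0.2], by nlinarith [ht0.2]⟩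
    refine ⟨min (ρ1) (r / 2), by positivity, ?_⟩
    rintro z ⟨hz, hzE⟩
    have hzr : dist z (q t0) < r / 2 := lt_of_lt_of_le hz (min_le_right _ _)
    have hzρ : dist z (q t0) < ρ1 := lt_of_lt_of_le hz (min_le_left _ _)
    set b := pt z y s1 with hb
    have hbq1 : dist b q1 ≤ dist z (q t0) := by
      rw [← hq1', hb]
      exact dist_pt_pt_le _ _ _ hs10.le (by linarith)
    have hzC : z ∈ ball (q t0) r ∩ E := ⟨by rw [mem_ball]; linarith, hzE⟩
    -- main claim: b ∈ E
    have hbE : b ∈ E := by
      set g : ℝ → V := fun κ => (1 - κ) • q1 + κ • b with hg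
      have hgc : Continuous g := by simp only [hg]; fun_prop
      have hcl : IsClosed ({κ | g κ ∈ E} ∩ Icc (0 : ℝ) 1) :=
        (hE.preimage hgc).inter isClosed_Icc
      have hkey := IsClosed.Icc_subset_of_forall_exists_gt hcl (by simpa [hg] using hq1E) ?_
      · have := hkey (right_mem_Icc.2 zero_le_one)
        simpa [hg] using this
      · rintro κ ⟨hκE, hκ0, hκ1⟩ u hu
        have hκE : g κ ∈ E := hκE
        -- g κ is close to q1
        have hgq1 : dist (g κ) q1 ≤ dist b q1 := by
          have : g κ - q1 = κ • (b - q1) := by simp only [hg]; module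
          rw [dist_eq_norm, dist_eq_norm, this, norm_smul, Real.norm_eq_abs, abs_of_nonneg hκ0]
          exact mul_le_of_le_one_left (norm_nonneg _) hκ1.le
        have hgsee : Sees E y (g κ) := hG1 _ ⟨by rw [mem_ball]; linarith, hκE⟩
        have hgball : g κ ∈ ball (q t0) r := by
          rw [mem_ball]
          calc dist (g κ) (q t0) ≤ dist (g κ) q1 + dist q1 (q t0) := dist_triangle _ _ _
            _ < r := by linarith
        -- find η
        have hcη : ContinuousAt (fun η : ℝ => pt (g κ) y η) 0 := (continuous_pt _ _).continuousAt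
        have hnhds : ∀ᶠ η in nhds (0 : ℝ), pt (g κ) y η ∈ ball (q t0) r := by
          apply hcη.eventually
          show ∀ᶠ x in nhds (pt (g κ) y 0), x ∈ ball (q t0) r
          rw [pt_zero]
          exact isOpen_ball.mem_nhds hgball
        obtain ⟨e1, he1, he1'⟩ := Metric.eventually_nhds_iff.1 hnhds
        set η := min (min (e1 / 2) (1 / 2)) (s1 * (u - κ)) with hη
        have huκ : 0 < u - κ := by linarith [mem_Ioi.1 hu]
        have hη0 : 0 < η := by positivity
        have hη1 : η < e1 := by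
          have : η ≤ e1 / 2 := (min_le_left _ _).trans (min_le_left _ _)
          linarith
        have hη2 : η ≤ 1 / 2 := (min_le_left _ _).trans (min_le_right _ _)
        have hη3 : η ≤ s1 * (u - κ) := min_le_right _ _
        have hgη : pt (g κ) y η ∈ ball (q t0) r ∩ E :=
          ⟨he1' (by rw [Real.dist_eq, sub_zero, abs_of_pos hη0]; exact hη1),
            hgsee η ⟨hη0.le, by linarith⟩⟩
        set D := s1 + η * (1 - s1) with hD
        have hD0 : 0 < D := by nlinarith
        have hDs : s1 ≤ D := by nlinarith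
        set c := s1 / D with hcdef
        have hc0 : 0 ≤ c := by positivity
        have hc1 : c ≤ 1 := (div_le_one hD0).2 hDs
        have hmem := hc hzC hgη (by linarith : 0 ≤ 1 - c) hc0 (by ring)
        set κ' := κ + (1 - κ) * (η / D) with hκ'
        have heq : (1 - c) • z + c • pt (g κ) y η = g κ' := by
          have hcD : c * D = s1 := by rw [hcdef]; field_simp
          have hηD : (η / D) * D = η := by field_simp
          -- expand everything in terms of z, q t0, y
          have e1 : g κ' = ((1 - s1) * (1 - κ')) • q t0 + ((1 - s1) * κ') • z + s1 • y := by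
            simp only [hg]
            rw [← hq1', hb]
            unfold pt
            module
          have e2 : pt (g κ) y η = ((1 - η) * ((1 - s1) * (1 - κ))) • q t0
              + ((1 - η) * ((1 - s1) * κ)) • z + ((1 - η) * s1 + η) • y := by
            simp only [hg]
            rw [← hq1', hb]
            unfold pt
            module
          rw [e1, e2]
          have c1 : c * ((1 - η) * ((1 - s1) * (1 - κ))) = (1 - s1) * (1 - κ') := by
            have : c * (1 - η) = 1 - η / D := by
              rw [hcdef]; field_simp; rw [hD]; ring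
            calc c * ((1 - η) * ((1 - s1) * (1 - κ))) = (c * (1 - η)) * ((1 - s1) * (1 - κ)) := by
                  ring
              _ = (1 - η / D) * ((1 - s1) * (1 - κ)) := by rw [this]
              _ = (1 - s1) * (1 - κ') := by rw [hκ']; ring
          have c3 : c * ((1 - η) * s1 + η) = s1 := by
            have : (1 - η) * s1 + η = D := by rw [hD]; ring
            rw [this, hcD]
          have c2 : (1 - c) + c * ((1 - η) * ((1 - s1) * κ)) = (1 - s1) * κ' := by
            have h1 : c * ((1 - η) * ((1 - s1) * κ)) = c * (1 - ((1 - η) * s1 + η))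
                - c * ((1 - η) * ((1 - s1) * (1 - κ))) := by ring
            rw [h1, c1, mul_sub, c3]
            ring
          calc (1 - c) • z + c • (((1 - η) * ((1 - s1) * (1 - κ))) • q t0
              + ((1 - η) * ((1 - s1) * κ)) • z + ((1 - η) * s1 + η) • y)
              = (c * ((1 - η) * ((1 - s1) * (1 - κ)))) • q t0
                + ((1 - c) + c * ((1 - η) * ((1 - s1) * κ))) • z
                + (c * ((1 - η) * s1 + η)) • y := by module
            _ = _ := by rw [c1, c2, c3]
        refine ⟨κ', ?_, ?_, ?_⟩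
        · show g κ' ∈ E
          rw [← heq]
          exact hmem.2
        · have : 0 < (1 - κ) * (η / D) := by
            have : 0 < 1 - κ := by linarith
            positivity
          linarith
        · have h1 : η / D ≤ u - κ := by
            rw [div_le_iff₀ hD0]
            nlinarith
          have h2 : 0 ≤ η / D := by positivity
          have h3 : (1 - κ) * (η / D) ≤ η / D := mul_le_of_le_one_left h2 (by linarith)
          linarith
    have hbC : b ∈ ball (q t0) r ∩ E := by
      refine ⟨?_, hbE⟩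
      rw [mem_ball]
      calc dist b (q t0) ≤ dist b q1 + dist q1 (q t0) := dist_triangle _ _ _
        _ < r := by linarith
    have hbsee : Sees E y b := hG1 _ ⟨by rw [mem_ball]; linarith, hbE⟩
    refine sees_of (s := s1) (by linarith) ?_ hbsee
    intro t ht
    -- pt z y t lies on the segment from z to b
    have hseg := hc hzC hbC (by
      have : t / s1 ≤ 1 := (div_le_one hs10).2 ht.2
      linarith : 0 ≤ 1 - t / s1) (div_nonneg ht.1 hs10.le) (by ring)
    have e : (1 - t / s1) • z + (t / s1) • b = pt z y t := by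
      rw [hb]
      have h1 : (t / s1) * s1 = t := by field_simp
      unfold pt
      calc (1 - t / s1) • z + (t / s1) • ((1 - s1) • z + s1 • y)
          = (1 - (t / s1) * s1) • z + ((t / s1) * s1) • y := by module
        _ = _ := by rw [h1]
    rw [e] at hseg
    exact hseg.2
  · -- flow point
    have ht1 : Good ((1 - s) * t0) := hlt _ (by nlinarith) (by nlinarith)
    obtain ⟨ρ1, hρ1, hG1⟩ := ht1
    refine ⟨min ρ ρ1, by positivity, ?_⟩
    rintro z ⟨hz, hzE⟩
    have hzρ : z ∈ ball (q t0) ρ := ball_subset_ball (min_le_left _ _) hz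
    have hzρ1 : dist z (q t0) < ρ1 := lt_of_lt_of_le hz (min_le_right _ _)
    refine sees_of hs1 (hf z ⟨hzρ, hzE⟩) ?_
    apply hG1
    refine ⟨?_, hf z ⟨hzρ, hzE⟩ s ⟨hs.le, le_rfl⟩⟩
    rw [mem_ball, ← hqpt s]
    exact lt_of_le_of_lt (dist_pt_pt_le _ _ _ hs.le hs1.le) hzρ1

/-- If `y ∈ E`, `E` is closed and connected and `E` is locally convex or flows to `y` at each
point, then `y` sees all of `E`. -/
theorem sees_all {E : Set V} (hE : IsClosed E) (hconn : IsConnected E) {y : V} (hy : y ∈ E)
    (hyp : ∀ q ∈ E, LC E q ∨ Flow E y q) : ∀ z ∈ E, Sees E y z := by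
  have hpc : PreconnectedSpace E := Subtype.preconnectedSpace hconn.isPreconnected
  set U : Set E := {z | Sees E y z} with hU
  have hUo : IsOpen U := by
    rw [Metric.isOpen_iff]
    rintro a ha
    obtain ⟨ρ, hρ, h⟩ := see_open hE hy hyp (a := (a : V)) ha
    exact ⟨ρ, hρ, fun z hz => h z ⟨hz, z.2⟩⟩
  have hUc : IsClosed U := by
    have : U = ⋂ t ∈ Icc (0 : ℝ) 1, {z : E | pt (z : V) y t ∈ E} := by
      ext z; simp only [hU, Sees, mem_ofPred_eq, mem_iInter]
    rw [this]
    refine isClosed_biInter fun t _ => hE.preimage ?_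
    unfold pt; fun_prop
  have hUne : U.Nonempty := by
    refine ⟨⟨y, hy⟩, fun t _ => ?_⟩
    have : pt y y t = y := by unfold pt; module
    rw [this]; exact hy
  have huniv := IsClopen.eq_univ ⟨hUc, hUo⟩ hUne
  intro z hz
  have : (⟨z, hz⟩ : E) ∈ U := by rw [huniv]; trivial
  exact this

end Pool.Agent.TH367.Star
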