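import Pool.Agent.TH367.Star1

/-!
The triangle lemma.
-/

namespace Pool.Agent.TH367.Star

open Metric Set

variable {V : Type*} [NormedAddCommGroup V] [NormedSpace ℝ V]

lemma tri_local {C : Set V} (hC : Convex ℝ C) {w v y : V} {σ1 σ2 t1 m : ℝ}
    (h0 : pt w v σ1 ∈ C) (h1 : pt (pt w v σ1) y t1 ∈ C) (h2 : pt w v σ2 ∈ C)
    (hσ1 : 0 ≤ σ1) (hσ2 : σ2 ≤ 1) (h12 : σ1 < σ2) (ht1 : 0 < t1) (ht1' : t1 ≤ 1)
    (hm : 0 < m) {σ t : ℝ} (hσ : σ1 ≤ σ) (hσ1' : σ ≤ 1) (hmσ : m * (1 - σ) ≤ σ2 - σ)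
    (ht : 0 ≤ t) (htle : t ≤ min (1 / 2) (t1 * m / 2) * (1 - σ)) :
    pt (pt w v σ) y t ∈ C := by
  have hs : 0 ≤ 1 - σ := by linarith
  have h1σ : 1 - σ ≤ 1 := by linarith
  have htl1 : t ≤ 1 / 2 := by
    calc t ≤ min (1 / 2) (t1 * m / 2) * (1 - σ) := htle
      _ ≤ (1 / 2) * (1 - σ) := by gcongr; exact min_le_left _ _
      _ ≤ 1 / 2 := by linarith
  have htl2 : t ≤ t1 * m / 2 * (1 - σ) := by
    calc t ≤ min (1 / 2) (t1 * m / 2) * (1 - σ) := htle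
      _ ≤ (t1 * m / 2) * (1 - σ) := by gcongr; exact min_le_right _ _
  have h2σ : 0 ≤ σ2 - σ := le_trans (by positivity) hmσ
  set d := σ2 - σ1 with hd
  have hd0 : 0 < d := by linarith
  have hd1 : d ≤ 1 := by linarith
  set β := t / t1 with hβ
  have hβ0 : 0 ≤ β := by positivity
  have hβt : β * t1 = t := by rw [hβ]; field_simp
  have hβ1 : β ≤ m / 2 * (1 - σ) := by
    rw [hβ, div_le_iff₀ ht1]; linarith
  set γ := (1 - t) * (σ - σ1) / d with hγ
  have hγ0 : 0 ≤ γ := by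
    apply div_nonneg (mul_nonneg (by linarith) (by linarith)) hd0.le
  set α' := (1 - t) * (σ2 - σ) / d with hα'
  have hα'1 : (1 / 2) * (σ2 - σ) ≤ α' := by
    rw [hα', le_div_iff₀ hd0]
    calc (1 / 2) * (σ2 - σ) * d ≤ (1 / 2) * (σ2 - σ) * 1 := by gcongr
      _ = (1 / 2) * (σ2 - σ) := by ring
      _ ≤ (1 - t) * (σ2 - σ) := by gcongr; linarith
  set α := α' - β * (1 - t1) with hα
  have hα0 : 0 ≤ α := by
    have : β * (1 - t1) ≤ β := mul_le_of_le_one_right hβ0 (by linarith)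
    rw [hα]; nlinarith
  have hγd : γ * d = (1 - t) * (σ - σ1) := by rw [hγ]; field_simp
  have hα'd : α' * d = (1 - t) * (σ2 - σ) := by rw [hα']; field_simp
  have hsum' : α' + γ = 1 - t := by
    have : (α' + γ) * d = (1 - t) * d := by rw [add_mul, hγd, hα'd, hd]; ring
    exact mul_right_cancel₀ hd0.ne' this
  have hsum : α + β + γ = 1 := by
    rw [hα]; linear_combination hsum' + hβt
  have hmem := hC.sum_mem (t := Finset.univ) (w := ![α, β, γ])
    (z := ![pt w v σ1, pt (pt w v σ1) y t1, pt w v σ2])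
    (by intro i _; fin_cases i <;> simp [hα0, hβ0, hγ0])
    (by simp [Fin.sum_univ_three, hsum])
    (by intro i _; fin_cases i <;> simp [h0, h1, h2])
  simp only [Fin.sum_univ_three] at hmem
  have heq : α • pt w v σ1 + β • pt (pt w v σ1) y t1 + γ • pt w v σ2 = pt (pt w v σ) y t := by
    have hv : (α + β * (1 - t1)) * σ1 + γ * σ2 = (1 - t) * σ := by
      have e1 : α + β * (1 - t1) = α' := by rw [hα]; ring
      rw [e1]
      have : (α' * σ1 + γ * σ2) * d = (1 - t) * σ * d := by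
        linear_combination σ1 * hα'd + σ2 * hγd
      exact mul_right_cancel₀ hd0.ne' this
    have hw : (α + β * (1 - t1)) * (1 - σ1) + γ * (1 - σ2) = (1 - t) * (1 - σ) := by
      have e1 : α + β * (1 - t1) = α' := by rw [hα]; ring
      have : (α + β * (1 - t1)) * (1 - σ1) + γ * (1 - σ2)
          = (α + β * (1 - t1) + γ) - ((α + β * (1 - t1)) * σ1 + γ * σ2) := by ring
      rw [this, hv, e1, hsum']; ring
    calc α • pt w v σ1 + β • pt (pt w v σ1) y t1 + γ • pt w v σ2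
        = ((α + β * (1 - t1)) * (1 - σ1) + γ * (1 - σ2)) • w
          + ((α + β * (1 - t1)) * σ1 + γ * σ2) • v + (β * t1) • y := by
            unfold pt; module
      _ = ((1 - t) * (1 - σ)) • w + ((1 - t) * σ) • v + t • y := by rw [hv, hw, hβt]
      _ = pt (pt w v σ) y t := by unfold pt; module
  rw [← heq]
  simpa using hmem

/-- A segment in `E` whose one end can move towards `y` inside `E` can be moved in a wedge. -/
lemma tri_wedge {E : Set V} {w v y : V}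
    (hyp : ∀ q ∈ E, LC E q ∨ Flow E y q) (hbase : ∀ σ ∈ Icc (0 : ℝ) 1, pt w v σ ∈ E)
    {δ0 : ℝ} (hδ0 : 0 < δ0) (hedge : ∀ t ∈ Icc (0 : ℝ) δ0, pt w y t ∈ E) :
    ∃ δ > 0, ∀ σ ∈ Icc (0 : ℝ) 1, ∀ t, 0 ≤ t → t ≤ δ * (1 - σ) → pt (pt w v σ) y t ∈ E := by
  classical
  set LG : ℝ → Prop := fun σ0 => ∃ δ > 0, ∃ r > 0, ∀ σ ∈ Icc (0 : ℝ) 1, |σ - σ0| < r →
    ∀ t, 0 ≤ t → t ≤ δ * (1 - σ) → pt (pt w v σ) y t ∈ E with hLG
  suffices hall : ∀ σ0 ∈ Icc (0 : ℝ) 1, LG σ0 by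
    have := isCompact_Icc (a := (0 : ℝ)) (b := 1) |>.induction_on
      (p := fun S => ∃ δ > 0, ∀ σ ∈ S ∩ Icc (0 : ℝ) 1, ∀ t, 0 ≤ t → t ≤ δ * (1 - σ) →
        pt (pt w v σ) y t ∈ E)
      ⟨1, one_pos, by simp⟩
      (by
        rintro S T hST ⟨δ, hδ, h⟩
        exact ⟨δ, hδ, fun σ hσ => h σ ⟨hST hσ.1, hσ.2⟩⟩)
      (by
        rintro S T ⟨δ, hδ, h⟩ ⟨δ', hδ', h'⟩
        refine ⟨min δ δ', lt_min hδ hδ', ?_⟩
        rintro σ ⟨hσ, hσI⟩ t ht htle
        have h1σ : 0 ≤ 1 - σ := by linarith [hσI.2]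
        rcases hσ with hσ | hσ
        · refine h σ ⟨hσ, hσI⟩ t ht (htle.trans ?_)
          gcongr; exact min_le_left _ _
        · refine h' σ ⟨hσ, hσI⟩ t ht (htle.trans ?_)
          gcongr; exact min_le_right _ _)
      (by
        intro σ0 hσ0
        obtain ⟨δ, hδ, r, hr, h⟩ := hall σ0 hσ0
        refine ⟨ball σ0 r, mem_nhdsWithin_of_mem_nhds (ball_mem_nhds _ hr), δ, hδ, ?_⟩
        rintro σ ⟨hσ, hσI⟩
        exact h σ hσI (by rwa [mem_ball, Real.dist_eq] at hσ))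
    obtain ⟨δ, hδ, h⟩ := this
    exact ⟨δ, hδ, fun σ hσ => h σ ⟨hσ, hσ⟩⟩
  have hopen : IsOpen {σ0 | LG σ0} := by
    rw [Metric.isOpen_iff]
    rintro σ0 ⟨δ, hδ, r, hr, h⟩
    refine ⟨r / 2, by positivity, fun σ' hσ' => ⟨δ, hδ, r / 2, by positivity, ?_⟩⟩
    intro σ hσ hσσ
    apply h σ hσ
    rw [mem_ball, Real.dist_eq] at hσ'
    calc |σ - σ0| = |(σ - σ') + (σ' - σ0)| := by ring_nf
      _ ≤ |σ - σ'| + |σ' - σ0| := abs_add_le _ _
      _ < r := by linarith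
  by_contra hcon
  push Not at hcon
  obtain ⟨σb, hσb, hσbG⟩ := hcon
  have hBc : IsCompact ({t | ¬ LG t} ∩ Icc (0 : ℝ) 1) :=
    isCompact_Icc.inter_left hopen.isClosed_compl
  obtain ⟨σ0, ⟨hσ0G, hσ0⟩, hleast⟩ := hBc.exists_isLeast ⟨σb, hσbG, hσb⟩
  have hlt : ∀ t, 0 ≤ t → t < σ0 → LG t := by
    intro t ht0' htt
    by_contra hg
    have := hleast ⟨hg, ht0', by linarith [hσ0.2]⟩
    linarith
  apply hσ0G
  have hcσ : Continuous (pt w v) := continuous_pt w v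
  rcases hyp (pt w v σ0) (hbase σ0 hσ0) with ⟨r, hr, hc⟩ | ⟨ρ, hρ, s, hs, hs1, hf⟩
  · -- locally convex point
    obtain ⟨δc, hδc, hδc'⟩ := Metric.continuous_iff.1 hcσ σ0 r hr
    -- left point
    obtain ⟨σ1, rl, hrl, hσ10, hσ11, hσ1c, hσ1l, hσ1E⟩ : ∃ σ1 rl : ℝ, 0 < rl ∧ 0 ≤ σ1 ∧ σ1 < 1 ∧
        |σ1 - σ0| < δc ∧ (∀ σ, 0 ≤ σ → |σ - σ0| < rl → σ1 ≤ σ) ∧
        ∃ e > 0, ∀ t ∈ Icc (0 : ℝ) e, pt (pt w v σ1) y t ∈ E := by
      rcases hσ0.1.lt_or_eq with hpos | hzero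
      · set σ1 := max 0 (σ0 - δc / 2) with hσ1
        have hσ1lt : σ1 < σ0 := max_lt hpos (by linarith)
        have hσ1ge : σ0 - δc / 2 ≤ σ1 := le_max_right _ _
        have hσ1nn : 0 ≤ σ1 := le_max_left _ _
        obtain ⟨δ, hδ, r', hr', h⟩ := hlt σ1 hσ1nn hσ1lt
        refine ⟨σ1, σ0 - σ1, by linarith, hσ1nn, by linarith [hσ0.2], ?_, ?_, ?_⟩
        · rw [abs_lt]; constructor <;> linarith
        · intro σ _ hσ
          rw [abs_lt] at hσ
          linarith [hσ.1]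
        · refine ⟨δ * (1 - σ1), mul_pos hδ (by linarith [hσ0.2]), fun t ht => ?_⟩
          exact h σ1 ⟨hσ1nn, by linarith [hσ0.2]⟩ (by simpa using hr') t ht.1 ht.2
      · refine ⟨0, 1, one_pos, le_rfl, one_pos, ?_, fun σ hσ _ => hσ, δ0, hδ0, ?_⟩
        · rw [← hzero]; simpa using hδc
        · simpa using hedge
    obtain ⟨e, he, hσ1E⟩ := hσ1E
    have hu1 : pt w v σ1 ∈ ball (pt w v σ0) r := hδc' σ1 (by rwa [Real.dist_eq])
    obtain ⟨t1, ht1, ht11, ht1e, ht1b⟩ : ∃ t1 > 0, t1 ≤ 1 ∧ t1 ≤ e ∧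
        pt (pt w v σ1) y t1 ∈ ball (pt w v σ0) r := by
      have hnhds : ∀ᶠ η in nhds (0 : ℝ), pt (pt w v σ1) y η ∈ ball (pt w v σ0) r := by
        apply (continuous_pt (pt w v σ1) y).continuousAt.eventually
        rw [pt_zero]
        exact isOpen_ball.mem_nhds hu1
      obtain ⟨e1, he1, he1'⟩ := Metric.eventually_nhds_iff.1 hnhds
      refine ⟨min (min 1 e) (e1 / 2), by positivity, (min_le_left _ _).trans (min_le_left _ _),
        (min_le_left _ _).trans (min_le_right _ _), he1' ?_⟩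
      rw [Real.dist_eq, sub_zero, abs_of_pos (by positivity)]
      have := min_le_right (min 1 e) (e1 / 2)
      linarith
    -- right point
    obtain ⟨σ2, m, rr, hm, hrr, hσ22, hσ2c, hσ12, hσ2r⟩ : ∃ σ2 m rr : ℝ, 0 < m ∧ 0 < rr ∧ σ2 ≤ 1 ∧
        |σ2 - σ0| < δc ∧ σ1 < σ2 ∧
        (∀ σ, 0 ≤ σ → σ ≤ 1 → |σ - σ0| < rr → m * (1 - σ) ≤ σ2 - σ) := by
      have h10 : σ1 ≤ σ0 := hσ1l σ0 hσ0.1 (by simpa using hrl)
      rcases hσ0.2.lt_or_eq with hlt1 | hone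
      · set σ2 := min 1 (σ0 + δc / 2) with hσ2
        have hσ2gt : σ0 < σ2 := lt_min hlt1 (by linarith)
        have hσ2le : σ2 ≤ σ0 + δc / 2 := min_le_right _ _
        have hσ2le1 : σ2 ≤ 1 := min_le_left _ _
        refine ⟨σ2, (σ2 - σ0) / 2, (σ2 - σ0) / 2, by linarith, by linarith, hσ2le1, ?_,
          by linarith, ?_⟩
        · rw [abs_lt]; constructor <;> linarith
        · intro σ h0 h1 hσ
          rw [abs_lt] at hσ
          have : (σ2 - σ0) / 2 * (1 - σ) ≤ (σ2 - σ0) / 2 * 1 := by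
            apply mul_le_mul_of_nonneg_left <;> linarith
          linarith
      · refine ⟨1, 1, 1, one_pos, one_pos, le_rfl, ?_, hσ11, ?_⟩
        · rw [hone]; simpa using hδc
        · intro σ _ _ _; linarith
    have hu2 : pt w v σ2 ∈ ball (pt w v σ0) r := hδc' σ2 (by rwa [Real.dist_eq])
    refine ⟨min (1 / 2) (t1 * m / 2), by positivity, min rl rr, lt_min hrl hrr, ?_⟩
    intro σ hσ hσσ t ht htle
    have := tri_local hc (w := w) (v := v) (y := y) (σ1 := σ1) (σ2 := σ2) (t1 := t1) (m := m)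
      ⟨hu1, hbase σ1 ⟨hσ10, hσ11.le⟩⟩ ⟨ht1b, hσ1E t1 ⟨ht1.le, ht1e⟩⟩
      ⟨hu2, hbase σ2 ⟨by linarith, hσ22⟩⟩ hσ10 hσ22 hσ12 ht1 ht11 hm
      (hσ1l σ hσ.1 (lt_of_lt_of_le hσσ (min_le_left _ _))) hσ.2
      (hσ2r σ hσ.1 hσ.2 (lt_of_lt_of_le hσσ (min_le_right _ _))) ht htle
    exact this.2
  · -- flow point
    obtain ⟨δ, hδ, hδ'⟩ := Metric.continuous_iff.1 hcσ σ0 ρ hρ
    refine ⟨s, hs, δ, hδ, fun σ hσ hσσ t ht htle => ?_⟩
    have h1 : pt w v σ ∈ ball (pt w v σ0) ρ := hδ' σ (by rwa [Real.dist_eq])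
    refine hf _ ⟨h1, hbase σ hσ⟩ t ⟨ht, htle.trans ?_⟩
    exact mul_le_of_le_one_right hs.le (by linarith [hσ.1])

/-- Triangle lemma. -/
lemma tri {E : Set V} (hE : IsClosed E) {w v y : V}
    (hyp : ∀ q ∈ E, LC E q ∨ Flow E y q) (hbase : ∀ σ ∈ Icc (0 : ℝ) 1, pt w v σ ∈ E)
    {θ : ℝ} (hθ0 : 0 ≤ θ) (hθ1 : θ ≤ 1) (hedge : ∀ t ∈ Icc (0 : ℝ) θ, pt w y t ∈ E) :
    ∀ σ ∈ Icc (0 : ℝ) 1, pt (pt w y θ) v σ ∈ E := by
  set S : Set ℝ := {t | ∀ σ ∈ Icc (0 : ℝ) 1, pt (pt w y t) v σ ∈ E} with hS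
  have hScl : IsClosed S := by
    have : S = ⋂ σ ∈ Icc (0 : ℝ) 1, {t : ℝ | pt (pt w y t) v σ ∈ E} := by
      ext z; simp only [hS, mem_ofPred_eq, mem_iInter]
    rw [this]
    refine isClosed_biInter fun σ _ => hE.preimage ?_
    unfold pt; fun_prop
  have hcl : IsClosed (S ∩ Icc (0 : ℝ) θ) := hScl.inter isClosed_Icc
  have h0 : (0 : ℝ) ∈ S := by
    intro σ hσ
    rw [pt_zero]; exact hbase σ hσ
  have hkey := IsClosed.Icc_subset_of_forall_exists_gt hcl h0 ?_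
  · exact hkey (right_mem_Icc.2 hθ0)
  · rintro x ⟨hxS, hx0, hxθ⟩ u hu
    have hx1 : x < 1 := lt_of_lt_of_le hxθ hθ1
    have h1x : 0 < 1 - x := by linarith
    obtain ⟨δ, hδ, hw⟩ := tri_wedge (w := pt w y x) (v := v) (y := y) hyp hxS
      (δ0 := (θ - x) / (1 - x)) (div_pos (by linarith) h1x) (by
        intro t ht
        rw [pt_pt]
        apply hedge
        have h1 : (1 - x) * t ≤ θ - x := by
          have := ht.2
          rw [le_div_iff₀ h1x] at this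
          linarith
        have h2 : 0 ≤ (1 - x) * t := mul_nonneg h1x.le ht.1
        exact ⟨by linarith, by linarith⟩)
    have hux : 0 < u - x := by linarith [mem_Ioi.1 hu]
    -- step of size τ
    set τ := min (min (δ / (1 + δ)) (1 / 2)) (u - x) with hτ
    have hτ0 : 0 < τ := by positivity
    have hτ1 : τ ≤ δ / (1 + δ) := (min_le_left _ _).trans (min_le_left _ _)
    have hτ2 : τ ≤ 1 / 2 := (min_le_left _ _).trans (min_le_right _ _)
    have hτ3 : τ ≤ u - x := min_le_right _ _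
    refine ⟨x + (1 - x) * τ, ?_, ?_, ?_⟩
    · intro σ hσ
      rw [← pt_pt]
      -- the point `pt (pt w' y τ) v σ`
      set w' := pt w y x with hw'
      set t := (1 - σ) * τ with ht
      have h1σ : 0 ≤ 1 - σ := by linarith [hσ.2]
      have h1σ' : 1 - σ ≤ 1 := by linarith [hσ.1]
      have ht0 : 0 ≤ t := by positivity
      have htτ : t ≤ τ := mul_le_of_le_one_left hτ0.le h1σ'
      have h1t : 0 < 1 - t := by linarith
      have hσt : σ / (1 - t) ≤ 1 := by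
        rw [div_le_one h1t]
        nlinarith
      have hmem := hw (σ / (1 - t)) ⟨div_nonneg hσ.1 h1t.le, hσt⟩ t ht0 (by
        have e : 1 - σ / (1 - t) = (1 - σ) * (1 - τ) / (1 - t) := by
          field_simp
          rw [ht]; ring
        rw [e, ← mul_div_assoc, le_div_iff₀ h1t]
        have h2 : τ * (1 + δ) ≤ δ := by
          rwa [le_div_iff₀ (by linarith)] at hτ1
        have h3 : τ ≤ δ * (1 - τ) := by linarith
        calc t * (1 - t) ≤ t * 1 := by gcongr; linarith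
          _ = (1 - σ) * τ := by rw [ht]; ring
          _ ≤ (1 - σ) * (δ * (1 - τ)) := by gcongr
          _ = δ * ((1 - σ) * (1 - τ)) := by ring)
      have heq : pt (pt w' v (σ / (1 - t))) y t = pt (pt w' y τ) v σ := by
        unfold pt
        have e1 : (1 - t) * (σ / (1 - t)) = σ := by field_simp
        have e2 : (1 - t) * (1 - σ / (1 - t)) = (1 - σ) * (1 - τ) := by
          rw [mul_sub, e1, ht]; ring
        calc (1 - t) • ((1 - σ / (1 - t)) • w' + (σ / (1 - t)) • v) + t • y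
            = ((1 - t) * (1 - σ / (1 - t))) • w' + ((1 - t) * (σ / (1 - t))) • v + t • y := by
              module
          _ = ((1 - σ) * (1 - τ)) • w' + σ • v + ((1 - σ) * τ) • y := by rw [e1, e2]
          _ = _ := by module
      rwa [heq] at hmem
    · have : 0 < (1 - x) * τ := by positivity
      linarith
    · have : (1 - x) * τ ≤ τ := mul_le_of_le_one_left hτ0.le (by linarith)
      linarith

end Pool.Agent.TH367.Star
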