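import Pool.Agent.TH367.Star2

/-!
The main theorem: Helly's theorem and the exclusion of a centre outside `E`.
-/

namespace Pool.Agent.TH367.Star

open Metric Set

section hull

/-- In finite dimension the convex hull of a compact set is compact. -/
theorem compact_hull {E : Type*} [NormedAddCommGroup E] [NormedSpace ℝ E]
    [FiniteDimensional ℝ E] {s : Set E} (hs : IsCompact s) : IsCompact (convexHull ℝ s) := by
  classical
  rcases s.eq_empty_or_nonempty with rfl | ⟨x0, hx0⟩
  · rw [convexHull_empty]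
    exact isCompact_empty
  obtain ⟨n, hn⟩ : ∃ n, n = Module.finrank ℝ E + 1 := ⟨_, rfl⟩
  have hK : IsCompact ((stdSimplex ℝ (Fin n)) ×ˢ (Set.pi Set.univ (fun _ : Fin n => s))) :=
    (isCompact_stdSimplex ℝ (Fin n)).prod (isCompact_univ_pi fun _ => hs)
  have hcont : Continuous (fun p : (Fin n → ℝ) × (Fin n → E) => ∑ i, p.1 i • p.2 i) := by
    refine continuous_finsetSum _ fun i _ => ?_
    exact ((continuous_apply i).comp continuous_fst).smul ((continuous_apply i).comp continuous_snd)
  have heq : convexHull ℝ s = (fun p : (Fin n → ℝ) × (Fin n → E) => ∑ i, p.1 i • p.2 i) ''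
      ((stdSimplex ℝ (Fin n)) ×ˢ (Set.pi Set.univ (fun _ : Fin n => s))) := by
    apply Set.Subset.antisymm
    · intro x hx
      obtain ⟨ι, hι, z, w, hz, hai, hw0, hw1, hwz⟩ := eq_pos_convex_span_of_mem_convexHull hx
      have hcard : Fintype.card ι ≤ Fintype.card (Fin n) := by
        have h1 := hai.card_le_finrank_succ
        have h2 := Submodule.finrank_le (vectorSpan ℝ (Set.range z))
        rw [Fintype.card_fin, hn]
        omega
      obtain ⟨e⟩ := Function.Embedding.nonempty_of_card_le hcard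
      refine ⟨(Function.extend e w 0, Function.extend e z (fun _ => x0)), ⟨⟨?_, ?_⟩, ?_⟩, ?_⟩
      · intro j
        show (0 : ℝ) ≤ Function.extend e w 0 j
        by_cases hj : ∃ i, e i = j
        · obtain ⟨i, rfl⟩ := hj
          rw [e.injective.extend_apply]
          exact (hw0 i).le
        · rw [Function.extend_apply' _ _ _ hj]
          exact le_rfl
      · rw [← hw1]
        symm
        refine Fintype.sum_of_injective e e.injective _ _ ?_ ?_
        · intro j hj
          show Function.extend e w 0 j = 0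
          rw [Function.extend_apply' _ _ _ hj]
          rfl
        · intro i
          show w i = Function.extend e w 0 (e i)
          rw [e.injective.extend_apply]
      · intro j _
        by_cases hj : ∃ i, e i = j
        · obtain ⟨i, rfl⟩ := hj
          show Function.extend e z (fun _ => x0) (e i) ∈ s
          rw [e.injective.extend_apply]
          exact hz ⟨i, rfl⟩
        · show Function.extend e z (fun _ => x0) j ∈ s
          rw [Function.extend_apply' _ _ _ hj]
          exact hx0
      · rw [← hwz]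
        symm
        refine Fintype.sum_of_injective e e.injective _ _ ?_ ?_
        · intro j hj
          show Function.extend e w 0 j • Function.extend e z (fun _ => x0) j = 0
          rw [Function.extend_apply' w _ _ hj]
          simp
        · intro i
          show w i • z i = Function.extend e w 0 (e i) • Function.extend e z (fun _ => x0) (e i)
          rw [e.injective.extend_apply, e.injective.extend_apply]
    · rintro _ ⟨⟨w, z⟩, ⟨⟨hw0, hw1⟩, hz⟩, rfl⟩
      refine (convex_convexHull ℝ s).sum_mem (fun i _ => hw0 i) hw1 (fun i _ => ?_)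
      exact subset_convexHull ℝ s (hz i (Set.mem_univ i))
  rw [heq]
  exact hK.image hcont

end hull

variable {V : Type*} [NormedAddCommGroup V] [NormedSpace ℝ V]

lemma isOpen_LC (E : Set V) : IsOpen {x | LC E x} := by
  rw [Metric.isOpen_iff]
  rintro x ⟨r, hr, hc⟩
  refine ⟨r / 2, by positivity, fun x' hx' => ⟨r / 2, by positivity, ?_⟩⟩
  have : ball x' (r / 2) ∩ E = ball x' (r / 2) ∩ (ball x r ∩ E) := by
    rw [← inter_assoc, inter_eq_self_of_subset_left (ball_subset_ball' _)]
    rw [mem_ball] at hx'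
    linarith
  rw [this]
  exact (convex_ball x' _).inter hc

/-- The points at which `E` is not locally convex. -/
def Q (E : Set V) : Set V := {x | x ∈ E ∧ ¬ LC E x}

lemma isCompact_Q {E : Set V} (hE : IsCompact E) : IsCompact (Q E) := by
  have : Q E = E ∩ {x | LC E x}ᶜ := by ext x; rfl
  rw [this]
  exact hE.inter_right (isOpen_LC E).isClosed_compl

/-- Points of `E` that see all of `E ∩ ball w ε`. -/
def A (E : Set V) (ε : ℝ) (w : V) : Set V := {y | y ∈ E ∧ ∀ z ∈ ball w ε ∩ E, Sees E y z}

lemma isCompact_A {E : Set V} (hE : IsCompact E) (ε : ℝ) (w : V) : IsCompact (A E ε w) := by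
  have : A E ε w = E ∩ ⋂ z ∈ ball w ε ∩ E, ⋂ t ∈ Icc (0 : ℝ) 1, {y | pt z y t ∈ E} := by
    ext y; simp only [A, Sees, mem_ofPred_eq, mem_iInter, mem_inter_iff]
  rw [this]
  refine hE.inter_right (isClosed_biInter fun z _ => isClosed_biInter fun t _ => ?_)
  refine hE.isClosed.preimage ?_
  unfold pt; fun_prop

/-- The centre found by Helly's theorem lies in `E`. -/
lemma centre_mem [FiniteDimensional ℝ V] {E : Set V} (hE : IsCompact E) {ε : ℝ} {w y : V}
    (hw : w ∈ Q E) (hε : 0 < ε)
    (hyp : ∀ q ∈ E, LC E q ∨ Flow E y q) (hflow : ∀ q ∈ Q E, Flow E y q)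
    (hy : y ∈ convexHull ℝ (A E ε w)) : y ∈ E := by
  classical
  by_contra hyE
  have hEcl := hE.isClosed
  -- the exit point
  set T : Set ℝ := {t | t ∈ Icc (0 : ℝ) 1 ∧ ∀ t' ∈ Icc (0 : ℝ) t, pt w y t' ∈ E} with hT
  have hTcl : IsClosed T := by
    have : T = Icc (0 : ℝ) 1 ∩ ⋂ k ∈ Icc (0 : ℝ) 1, {t : ℝ | pt w y (k * t) ∈ E} := by
      ext t
      simp only [hT, mem_ofPred_eq, mem_inter_iff, mem_iInter]
      constructor
      · rintro ⟨ht, h⟩
        refine ⟨ht, fun k hk => h _ ⟨mul_nonneg hk.1 ht.1, ?_⟩⟩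
        exact mul_le_of_le_one_left ht.1 hk.2
      · rintro ⟨ht, h⟩
        refine ⟨ht, fun t' ht' => ?_⟩
        rcases ht.1.lt_or_eq with hpos | hzero
        · have := h (t' / t) ⟨div_nonneg ht'.1 ht.1, (div_le_one hpos).2 ht'.2⟩
          rwa [div_mul_cancel₀ _ hpos.ne'] at this
        · have h0 : t' = 0 := le_antisymm (by rw [hzero]; exact ht'.2) ht'.1
          have := h 0 (by simp)
          rw [h0]
          simpa using this
    rw [this]
    refine isClosed_Icc.inter (isClosed_biInter fun k _ => hEcl.preimage ?_)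
    unfold pt; fun_prop
  have hTc : IsCompact T := by
    have : T = T ∩ Icc (0 : ℝ) 1 := by
      ext t; constructor
      · intro h; exact ⟨h, h.1⟩
      · intro h; exact h.1
    rw [this]
    exact isCompact_Icc.inter_left hTcl
  have hT0 : (0 : ℝ) ∈ T := by
    refine ⟨by simp, fun t ht => ?_⟩
    have : t = 0 := le_antisymm ht.2 ht.1
    rw [this, pt_zero]
    exact hw.1
  obtain ⟨t0, ht0T, hgreat⟩ := hTc.exists_isGreatest ⟨0, hT0⟩
  have ht0 := ht0T.1
  have ht0edge := ht0T.2
  have ht01 : t0 < 1 := by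
    rcases ht0.2.lt_or_eq with h | h
    · exact h
    · exfalso
      apply hyE
      have := ht0edge t0 ⟨ht0.1, le_rfl⟩
      rwa [h, pt_one] at this
  set c0 := pt w y t0 with hc0
  have hc0E : c0 ∈ E := ht0edge t0 ⟨ht0.1, le_rfl⟩
  -- no continuation from c0
  have hnocont : ∀ s > 0, s < 1 → ¬ ∀ t ∈ Icc (0 : ℝ) s, pt c0 y t ∈ E := by
    intro s hs hs1 h
    have h1 : t0 + (1 - t0) * s ∈ T := by
      refine ⟨⟨by nlinarith [ht0.1], by nlinarith⟩, fun t' ht' => ?_⟩
      rcases le_total t' t0 with h2 | h2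
      · exact ht0edge t' ⟨ht'.1, h2⟩
      · have h1t : 0 < 1 - t0 := by linarith
        have := h ((t' - t0) / (1 - t0)) ⟨div_nonneg (by linarith) h1t.le, by
          rw [div_le_iff₀ h1t]; linarith [ht'.2]⟩
        rw [hc0, pt_pt] at this
        have e : t0 + (1 - t0) * ((t' - t0) / (1 - t0)) = t' := by field_simp; ring
        rwa [e] at this
    have := hgreat h1
    nlinarith
  have hc0LC : LC E c0 := by
    by_contra hnot
    obtain ⟨ρ, hρ, s, hs, hs1, hf⟩ := hflow c0 ⟨hc0E, hnot⟩
    exact hnocont s hs hs1 (hf c0 ⟨mem_ball_self hρ, hc0E⟩)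
  obtain ⟨r, hr, hc⟩ := hc0LC
  have hout : ∀ τ > 0, τ < 1 → pt c0 y τ ∈ ball c0 r → pt c0 y τ ∉ E := by
    intro τ hτ hτ1 hb hin
    apply hnocont τ hτ hτ1
    intro t ht
    have hseg := hc ⟨mem_ball_self hr, hc0E⟩ ⟨hb, hin⟩ (by
      have : t / τ ≤ 1 := (div_le_one hτ).2 ht.2
      linarith : 0 ≤ 1 - t / τ) (div_nonneg ht.1 hτ.le) (by ring)
    have e : (1 - t / τ) • c0 + (t / τ) • pt c0 y τ = pt c0 y t := by
      have h1 : (t / τ) * τ = t := by field_simp
      unfold pt
      calc (1 - t / τ) • c0 + (t / τ) • ((1 - τ) • c0 + τ • y)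
          = (1 - (t / τ) * τ) • c0 + ((t / τ) * τ) • y := by module
        _ = _ := by rw [h1]
    rw [e] at hseg
    exact hseg.2
  -- the compact convex neighbourhood
  set N := closedBall c0 (r / 2) ∩ E with hN
  have hNeq : N = closedBall c0 (r / 2) ∩ (ball c0 r ∩ E) := by
    rw [← inter_assoc, inter_eq_self_of_subset_left (closedBall_subset_ball (by linarith))]
  have hNconv : Convex ℝ N := by
    rw [hNeq]; exact (convex_closedBall _ _).inter hc
  have hNcl : IsClosed N := isClosed_closedBall.inter hEcl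
  -- bound for E
  obtain ⟨M, hM⟩ := hE.isBounded.subset_closedBall c0
  have hM' : ∀ v ∈ E, dist v c0 ≤ M := fun v hv => hM hv
  have hM0 : 0 ≤ M := by simpa using hM' c0 hc0E
  set η := min (1 / 2) (r / (2 * (M + 1))) with hη
  have hη0 : 0 < η := by positivity
  have hη1 : η ≤ 1 / 2 := min_le_left _ _
  have hηM : η * M ≤ r / 2 := by
    calc η * M ≤ (r / (2 * (M + 1))) * (M + 1) := by
          apply mul_le_mul (min_le_right _ _) (by linarith) hM0 (by positivity)
      _ = r / 2 := by field_simp
  have hvN : ∀ v ∈ A E ε w, pt c0 v η ∈ N := by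
    intro v hv
    have hsees : Sees E v w := hv.2 w ⟨mem_ball_self hε, hw.1⟩
    have htri := tri hEcl (w := w) (v := v) (y := y) hyp hsees ht0.1 ht0.2 ht0edge
    refine ⟨?_, htri η ⟨hη0.le, by linarith⟩⟩
    rw [mem_closedBall, dist_eq_norm, pt_sub, norm_smul, Real.norm_eq_abs, abs_of_pos hη0,
      ← dist_eq_norm]
    calc η * dist v c0 ≤ η * M := by gcongr; exact hM' v hv.1
      _ ≤ r / 2 := hηM
  -- choose τ
  obtain ⟨τ, hτ0, hτη, hτb⟩ : ∃ τ > 0, τ < η ∧ pt c0 y τ ∈ ball c0 r := by
    have hnhds : ∀ᶠ η in nhds (0 : ℝ), pt c0 y η ∈ ball c0 r := by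
      apply (continuous_pt c0 y).continuousAt.eventually
      rw [pt_zero]
      exact isOpen_ball.mem_nhds (mem_ball_self hr)
    obtain ⟨e1, he1, he1'⟩ := Metric.eventually_nhds_iff.1 hnhds
    refine ⟨min (η / 2) (e1 / 2), by positivity, ?_, he1' ?_⟩
    · have := min_le_left (η / 2) (e1 / 2)
      linarith
    · rw [Real.dist_eq, sub_zero, abs_of_pos (by positivity)]
      have := min_le_right (η / 2) (e1 / 2)
      linarith
  have heN : pt c0 y τ ∉ N := fun h => hout τ hτ0 (by linarith) hτb h.2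
  obtain ⟨f, u, hfu, hfN⟩ := geometric_hahn_banach_point_closed hNconv hNcl heN
  have hfpt : ∀ a b : V, ∀ t : ℝ, f (pt a b t) = (1 - t) * f a + t * f b := by
    intro a b t; unfold pt; simp
  have hc0N : c0 ∈ N := ⟨mem_closedBall_self (by positivity), hc0E⟩
  have h1 := hfN c0 hc0N
  rw [hfpt] at hfu
  have hL0 : f y < f c0 := by nlinarith
  have hLv : ∀ v ∈ A E ε w, f y < f v := by
    intro v hv
    have h2 := hfN _ (hvN v hv)
    rw [hfpt] at h2
    by_contra hcon
    push Not at hcon
    nlinarith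
  have hsub : convexHull ℝ (A E ε w) ⊆ {v | f y < f v} :=
    convexHull_min hLv (by
      have := (convex_halfSpace_gt (𝕜 := ℝ) (f := f) ⟨f.map_add, f.map_smul⟩ (f y))
      exact this)
  have hlast : f y < f y := hsub hy
  exact lt_irrefl _ hlast

end Pool.Agent.TH367.Star
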